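import Pool.Agent.H94.Cubic.Dm

/-!
# Vector bundles on the cone given by polynomial vectors
-/

open MvPolynomial Filter Topology

set_option linter.unusedSectionVars false
set_option linter.unusedSimpArgs false
set_option linter.unusedVariables false

namespace H94.Cubic

open H89.Hart

/-! ### linear algebra -/

section lin

variable {m κ : Type*} [Fintype m] [DecidableEq m] [Fintype κ] [DecidableEq κ]

theorem exists_dual_gen (s : m → κ → ℂ) (hs : LinearIndependent ℂ s) :
    ∃ l : m → κ → ℂ, ∀ i j, s i ⬝ᵥ l j = if i = j then 1 else 0 := by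
  let L : (m → ℂ) →ₗ[ℂ] (κ → ℂ) := Fintype.linearCombination ℂ s
  have hL : LinearMap.ker L = ⊥ := by
    rw [LinearMap.ker_eq_bot']
    intro c hc
    have := Fintype.linearIndependent_iff.1 hs c (by simpa [L, Fintype.linearCombination_apply] using hc)
    exact funext this
  obtain ⟨π, hπ⟩ := L.exists_leftInverse_of_injective hL
  refine ⟨fun j k => π (Pi.single k 1) j, fun i j => ?_⟩
  have h1 : L (Pi.single i 1) = s i := by
    simp [L, Fintype.linearCombination_apply]
  have h2 : π (s i) = Pi.single i 1 := by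
    rw [← h1]
    have := congrArg (fun φ => φ (Pi.single i (1 : ℂ))) hπ
    simpa using this
  have h3 : π (s i) = ∑ k, s i k • π (Pi.single k 1) := by
    conv_lhs => rw [show s i = ∑ k, s i k • (Pi.single k (1 : ℂ) : κ → ℂ) from by
      funext m; simp [Finset.sum_apply, Pi.single_apply]]
    rw [map_sum]; simp
  have h4 : (π (s i)) j = s i ⬝ᵥ fun k => π (Pi.single k 1) j := by
    rw [h3]; simp [dotProduct, Finset.sum_apply]
  rw [← h4, h2]
  by_cases h : i = j
  · subst h; simp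
  · simp [h, Pi.single_apply, Ne.symm h]

/-- pairing matrix: columns are indexed by the vectors. -/
def pm (G : m → κ → ℂ) (l : m → κ → ℂ) : Matrix m m ℂ := Matrix.of fun j i => G i ⬝ᵥ l j

theorem li_of_pm (G l : m → κ → ℂ) (h : (pm G l).det ≠ 0) : LinearIndependent ℂ G := by
  rw [Fintype.linearIndependent_iff]
  intro c hc
  have h1 : (pm G l).mulVec c = 0 := by
    funext j
    have := congrArg (fun v => v ⬝ᵥ l j) hc
    simp only [sum_dotProduct, smul_dotProduct, zero_dotProduct, smul_eq_mul] at this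
    simpa [Matrix.mulVec, dotProduct, pm, mul_comm] using this
  have := Matrix.eq_zero_of_mulVec_eq_zero h h1
  intro i; exact congrFun this i

theorem cramer_gen (G l : m → κ → ℂ) {φ : κ → ℂ} (hφ : φ ∈ Submodule.span ℂ (Set.range G)) :
    (pm G l).det • φ = ∑ i, (pm G l).cramer (fun j => φ ⬝ᵥ l j) i • G i := by
  obtain ⟨b, rfl⟩ := (Submodule.mem_span_range_iff_exists_fun ℂ).1 hφ
  have h1 : (fun j => (∑ i, b i • G i) ⬝ᵥ l j) = (pm G l).mulVec b := by
    funext j
    have h3 : ∀ i, (b i • G i) ⬝ᵥ l j = pm G l j i * b i := by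
      intro i; rw [smul_dotProduct, smul_eq_mul, mul_comm]; rfl
    rw [sum_dotProduct, Finset.sum_congr rfl (fun i _ => h3 i)]
    rfl
  have h2 : (pm G l).cramer ((pm G l).mulVec b) = (pm G l).det • b := by
    rw [Matrix.cramer_eq_adjugate_mulVec, Matrix.mulVec_mulVec, Matrix.adjugate_mul,
      Matrix.smul_mulVec, Matrix.one_mulVec]
  rw [h1, h2, Finset.smul_sum]
  refine Finset.sum_congr rfl fun i _ => ?_
  rw [smul_smul]; rfl

theorem pm_dual {G l : m → κ → ℂ} (h : ∀ i j, G i ⬝ᵥ l j = if i = j then 1 else 0) :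
    pm G l = 1 := by
  ext j i
  rw [pm, Matrix.of_apply, h, Matrix.one_apply]
  by_cases e : i = j
  · simp [e]
  · simp [e, Ne.symm e]

end lin

variable {ι κ β m : Type*} [Fintype ι] [DecidableEq ι] [Fintype κ] [DecidableEq κ]
  [Fintype m] [DecidableEq m]

/-- evaluation of a vector of polynomials. -/
noncomputable def ev (x : ι → ℂ) (v : κ → MvPolynomial ι ℂ) : κ → ℂ := fun k => eval x (v k)

theorem ev_apply (x : ι → ℂ) (v : κ → MvPolynomial ι ℂ) (k : κ) : ev x v k = eval x (v k) := rfl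

/-- polynomial pairing matrix. -/
noncomputable def pmat (G : m → κ → MvPolynomial ι ℂ) (l : m → κ → ℂ) :
    Matrix m m (MvPolynomial ι ℂ) := Matrix.of fun j i => ∑ k, C (l j k) * G i k

theorem map_pmat (G : m → κ → MvPolynomial ι ℂ) (l : m → κ → ℂ) (x : ι → ℂ) :
    (pmat G l).map (eval x) = pm (fun i => ev x (G i)) l := by
  ext j i
  simp [pmat, pm, ev, dotProduct, mul_comm]

theorem eval_det_pmat (G : m → κ → MvPolynomial ι ℂ) (l : m → κ → ℂ) (x : ι → ℂ) :
    eval x (pmat G l).det = (pm (fun i => ev x (G i)) l).det := by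
  rw [← map_pmat, RingHom.map_det]; rfl

theorem eval_cramer_pmat (G : m → κ → MvPolynomial ι ℂ) (l : m → κ → ℂ) (x : ι → ℂ)
    (b : m → ℂ) (i : m) : eval x ((pmat G l).cramer (fun j => C (b j)) i) =
      (pm (fun i => ev x (G i)) l).cramer b i := by
  rw [Matrix.cramer_apply, Matrix.cramer_apply, ← map_pmat, RingHom.map_det]
  congr 1
  ext j i'
  by_cases h : i' = i
  · subst h; simp
  · simp [Matrix.updateCol_ne h]

theorem det_homog_col (M : Matrix m m (MvPolynomial ι ℂ)) (δ : m → ℕ)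
    (h : ∀ j i, (M j i).IsHomogeneous (δ i)) : M.det.IsHomogeneous (∑ i, δ i) := by
  rw [Matrix.det_apply]
  refine IsHomogeneous.sum _ _ _ fun σ _ => ?_
  have h1 : (∏ i, M (σ i) i).IsHomogeneous (∑ i, δ i) :=
    IsHomogeneous.prod _ _ _ fun i _ => h (σ i) i
  have h2 : (Equiv.Perm.sign σ • ∏ i, M (σ i) i) =
      C (((Equiv.Perm.sign σ : ℤˣ) : ℤ) : ℂ) * ∏ i, M (σ i) i := by
    rw [Units.smul_def, zsmul_eq_mul]
    congr 1
  rw [h2]
  have := (isHomogeneous_C ι ((((Equiv.Perm.sign σ : ℤˣ) : ℤ) : ℂ))).mul h1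
  simpa using this

theorem pmat_homog (G : m → κ → MvPolynomial ι ℂ) (l : m → κ → ℂ) (δ : m → ℕ)
    (h : ∀ i k, (G i k).IsHomogeneous (δ i)) (j i : m) : (pmat G l j i).IsHomogeneous (δ i) := by
  rw [pmat, Matrix.of_apply]
  refine IsHomogeneous.sum _ _ _ fun k _ => ?_
  have := (isHomogeneous_C ι (l j k)).mul (h i k)
  simpa using this

/-- the fibre. -/
def Fib (g : β → κ → MvPolynomial ι ℂ) (x : ι → ℂ) : Submodule ℂ (κ → ℂ) :=
  Submodule.span ℂ (Set.range fun b => ev x (g b))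

/-- constant rank on the punctured cone. -/
structure Bun (I : Ideal (MvPolynomial ι ℂ)) (g : β → κ → MvPolynomial ι ℂ) (e a : ℕ) : Prop where
  homog : ∀ b k, (g b k).IsHomogeneous e
  rank : ∀ x ∈ cone I, x ≠ 0 → Module.finrank ℂ (Fib g x) = a

variable {I : Ideal (MvPolynomial ι ℂ)} {g : β → κ → MvPolynomial ι ℂ} {e a : ℕ}

theorem Bun.exists_frame (hB : Bun I g e a) {p : ι → ℂ} (hp : p ∈ cone I) (hp0 : p ≠ 0) :
    ∃ σ : Fin a → β, LinearIndependent ℂ (fun i => ev p (g (σ i))) := by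
  have h := Submodule.exists_fun_fin_finrank_span_eq ℂ (Set.range fun b => ev p (g b))
  have hr := hB.rank p hp hp0
  rw [Fib] at hr
  rw [hr] at h
  obtain ⟨b, hb1, -, hb3⟩ := h
  choose σ hσ using hb1
  refine ⟨σ, ?_⟩
  have : (fun i => ev p (g (σ i))) = b := funext hσ
  rwa [this]

theorem Bun.span_eq (hB : Bun I g e a) {y : ι → ℂ} (hy : y ∈ cone I) (hy0 : y ≠ 0)
    {σ : Fin a → β} (hli : LinearIndependent ℂ (fun i => ev y (g (σ i)))) :
    Submodule.span ℂ (Set.range fun i => ev y (g (σ i))) = Fib g y := by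
  apply Submodule.eq_of_le_of_finrank_eq
  · rw [Submodule.span_le]
    rintro _ ⟨i, rfl⟩
    exact Submodule.subset_span ⟨σ i, rfl⟩
  · rw [finrank_span_eq_card hli, hB.rank y hy hy0, Fintype.card_fin]

theorem continuous_ev (v : κ → MvPolynomial ι ℂ) : Continuous fun x : ι → ℂ => ev x v :=
  continuous_pi fun k => MvPolynomial.continuous_eval (v k)

/-- closedness along curves. -/
theorem Bun.closed_curve (hB : Bun I g e a) {w : ℂ → ι → ℂ} {φ : ℂ → κ → ℂ}
    (hw : Continuous w) (hφ : Continuous φ) (hp : w 0 ∈ cone I) (hp0 : w 0 ≠ 0)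
    (h : ∀ t, t ≠ 0 → w t ≠ 0 → w t ∈ cone I ∧ φ t ∈ Fib g (w t)) : φ 0 ∈ Fib g (w 0) := by
  obtain ⟨σ, hσ⟩ := hB.exists_frame hp hp0
  obtain ⟨l, hl⟩ := exists_dual_gen _ hσ
  let E : ℂ → κ → ℂ := fun t => (pm (fun i => ev (w t) (g (σ i))) l).det • φ t -
    ∑ i, (pm (fun i => ev (w t) (g (σ i))) l).cramer (fun j => φ t ⬝ᵥ l j) i •
      ev (w t) (g (σ i))
  have hc0 : ∀ i, Continuous fun t => ev (w t) (g (σ i)) := fun i => (continuous_ev _).comp hw
  have hpm : Continuous fun t => pm (fun i => ev (w t) (g (σ i))) l := by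
    refine continuous_matrix fun j i => ?_
    simp only [pm, Matrix.of_apply]
    exact (hc0 i).dotProduct continuous_const
  have hE : Continuous E := by
    refine Continuous.sub (hpm.matrix_det.smul hφ) ?_
    refine continuous_finsetSum _ fun i _ => ?_
    have hci : Continuous fun t =>
        (pm (fun i => ev (w t) (g (σ i))) l).cramer (fun j => φ t ⬝ᵥ l j) i := by
      simp only [Matrix.cramer_eq_adjugate_mulVec, Matrix.mulVec, dotProduct]
      refine continuous_finsetSum _ fun j _ => ?_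
      exact (hpm.matrix_adjugate.matrix_elem i j).mul (hφ.dotProduct continuous_const)
    exact hci.smul (hc0 i)
  have hd0 : (pm (fun i => ev (w 0) (g (σ i))) l).det = 1 := by
    rw [pm_dual hl, Matrix.det_one]
  have hev : ∀ᶠ t in 𝓝[≠] (0 : ℂ), E t = 0 := by
    have h1 : ∀ᶠ t in 𝓝 (0 : ℂ), (pm (fun i => ev (w t) (g (σ i))) l).det ≠ 0 :=
      hpm.matrix_det.continuousAt.eventually_ne (by rw [hd0]; exact one_ne_zero)
    have h2 : ∀ᶠ t in 𝓝 (0 : ℂ), w t ≠ 0 := hw.continuousAt.eventually_ne hp0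
    have h3 : ∀ᶠ t in 𝓝[≠] (0 : ℂ), t ≠ 0 := self_mem_nhdsWithin
    filter_upwards [h1.filter_mono nhdsWithin_le_nhds, h2.filter_mono nhdsWithin_le_nhds, h3] with
      t h1 h2 h3
    obtain ⟨h4, h5⟩ := h t h3 h2
    rw [← hB.span_eq h4 h2 (li_of_pm _ l h1)] at h5
    simp only [E]
    rw [cramer_gen _ l h5, sub_self]
  have h0 : E 0 = 0 := by
    have h1 : Tendsto E (𝓝[≠] 0) (𝓝 (E 0)) := (hE.tendsto 0).mono_left nhdsWithin_le_nhds
    have h2 : Tendsto E (𝓝[≠] 0) (𝓝 0) :=
      tendsto_const_nhds.congr' (hev.mono fun t ht => ht.symm)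
    exact tendsto_nhds_unique h1 h2
  have h1 : φ 0 = ∑ i, (pm (fun i => ev (w 0) (g (σ i))) l).cramer (fun j => φ 0 ⬝ᵥ l j) i •
      ev (w 0) (g (σ i)) := by
    have := sub_eq_zero.1 h0
    rwa [hd0, one_smul] at this
  rw [h1]
  exact Submodule.sum_mem _ fun i _ => Submodule.smul_mem _ _ (Submodule.subset_span ⟨σ i, rfl⟩)

/-- the Cramer defect of a constant vector. -/
noncomputable def defect (G : m → κ → MvPolynomial ι ℂ) (l : m → κ → ℂ) (φ : κ → ℂ) :
    κ → MvPolynomial ι ℂ := fun c => (pmat G l).det * C (φ c) -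
      ∑ i, (pmat G l).cramer (fun j => C (φ ⬝ᵥ l j)) i * G i c

theorem ev_defect (G : m → κ → MvPolynomial ι ℂ) (l : m → κ → ℂ) (φ : κ → ℂ) (y : ι → ℂ) :
    ev y (defect G l φ) = (pm (fun i => ev y (G i)) l).det • φ -
      ∑ i, (pm (fun i => ev y (G i)) l).cramer (fun j => φ ⬝ᵥ l j) i • ev y (G i) := by
  funext c
  simp only [ev, defect, map_sub, map_mul, map_sum, eval_C, eval_det_pmat, eval_cramer_pmat,
    Pi.sub_apply, Pi.smul_apply, smul_eq_mul, Finset.sum_apply]

theorem det_not_mem {P : Ideal (MvPolynomial ι ℂ)} {p : ι → ℂ} (hp : p ∈ cone P)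
    (G : m → κ → MvPolynomial ι ℂ) (l : m → κ → ℂ)
    (hl : ∀ i j, ev p (G i) ⬝ᵥ l j = if i = j then 1 else 0) : (pmat G l).det ∉ P := by
  intro hm
  have h1 := hp _ hm
  rw [eval_det_pmat, pm_dual hl, Matrix.det_one] at h1
  exact one_ne_zero h1

theorem mem_of_defect {P : Ideal (MvPolynomial ι ℂ)} {p : ι → ℂ} (hp : p ∈ cone P)
    (G : m → κ → MvPolynomial ι ℂ) (l : m → κ → ℂ)
    (hl : ∀ i j, ev p (G i) ⬝ᵥ l j = if i = j then 1 else 0) {φ : κ → ℂ}
    (hE : ∀ c, defect G l φ c ∈ P) : φ ∈ Submodule.span ℂ (Set.range fun i => ev p (G i)) := by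
  have h0 : ev p (defect G l φ) = 0 := by
    funext c
    rw [ev_apply, Pi.zero_apply]
    exact hp _ (hE c)
  rw [ev_defect, pm_dual hl, Matrix.det_one, one_smul, sub_eq_zero] at h0
  rw [h0]
  exact Submodule.sum_mem _ fun i _ => Submodule.smul_mem _ _ (Submodule.subset_span ⟨i, rfl⟩)

theorem eval_defect_eq_zero (G : m → κ → MvPolynomial ι ℂ) (l : m → κ → ℂ) {φ : κ → ℂ}
    {z : ι → ℂ} (h : φ ∈ Submodule.span ℂ (Set.range fun i => ev z (G i))) (c : κ) :
    eval z (defect G l φ c) = 0 := by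
  have h5 := ev_defect G l φ z
  rw [cramer_gen _ l h, sub_self] at h5
  exact congrFun h5 c

theorem exists_coord {p : ι → ℂ} (hp0 : p ≠ 0) : ∃ k, p k ≠ 0 := by
  by_contra hc; push Not at hc; exact hp0 (funext hc)

/-- closedness along subvarieties. -/
theorem Bun.closed_prime (hB : Bun I g e a) {P : Ideal (MvPolynomial ι ℂ)} (hP : P.IsPrime)
    (hIP : I ≤ P) {Δ : MvPolynomial ι ℂ} (hΔ : Δ ∉ P) {φ : κ → ℂ}
    (h : ∀ y ∈ cone P, y ≠ 0 → eval y Δ ≠ 0 → φ ∈ Fib g y) :
    ∀ y ∈ cone P, y ≠ 0 → φ ∈ Fib g y := by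
  intro p hp hp0
  have hpI := cone_anti hIP hp
  obtain ⟨σ, hσ⟩ := hB.exists_frame hpI hp0
  obtain ⟨l, hl⟩ := exists_dual_gen _ hσ
  obtain ⟨k, hk⟩ := exists_coord hp0
  have hD := det_not_mem hp (fun i => g (σ i)) l hl
  have hX : (X k : MvPolynomial ι ℂ) ∉ P := fun hm => hk (by simpa using hp _ hm)
  have hEP : ∀ c, defect (fun i => g (σ i)) l φ c ∈ P := by
    intro c
    have hne : (X k * (Δ * (pmat (fun i => g (σ i)) l).det)) ∉ P := by
      intro hm
      rcases hP.mem_or_mem hm with h2 | h2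
      · exact hX h2
      · rcases hP.mem_or_mem h2 with h3 | h3
        · exact hΔ h3
        · exact hD h3
    refine (hP.mem_or_mem ?_).resolve_left hne
    apply mem_of_cone hP
    intro z hz
    rw [map_mul]
    by_cases h0 : eval z (X k * (Δ * (pmat (fun i => g (σ i)) l).det)) = 0
    · rw [h0, zero_mul]
    · rw [map_mul, map_mul, eval_X] at h0
      have h1 : z k ≠ 0 := left_ne_zero_of_mul h0
      have h2 : eval z Δ ≠ 0 := left_ne_zero_of_mul (right_ne_zero_of_mul h0)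
      have h3 : eval z (pmat (fun i => g (σ i)) l).det ≠ 0 :=
        right_ne_zero_of_mul (right_ne_zero_of_mul h0)
      have hz0 : z ≠ 0 := by rintro rfl; exact h1 rfl
      have h4 := h z hz hz0 h2
      rw [eval_det_pmat] at h3
      rw [← hB.span_eq (cone_anti hIP hz) hz0 (li_of_pm _ l h3)] at h4
      rw [eval_defect_eq_zero _ l h4, mul_zero]
  have h5 := mem_of_defect hp (fun i => g (σ i)) l hl hEP
  rwa [hB.span_eq hpI hp0 hσ] at h5

end H94.Cubic
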