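import Pool.Agent.H94.Cubic.Ext

/-!
# Dimensions as natural numbers; the intersection lemma and the contact lemma
-/

open MvPolynomial

set_option linter.unusedSectionVars false
set_option linter.unusedSimpArgs false
set_option linter.unusedVariables false

namespace H94.Cubic

open H89.Hart

section dm

variable {σ : Type*} [Fintype σ] [DecidableEq σ]

theorem exists_dm {P : Ideal (MvPolynomial σ ℂ)} (hP : P.IsPrime) :
    ∃ d : ℕ, ringKrullDim (MvPolynomial σ ℂ ⧸ P) = d := by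
  have h1 : ringKrullDim (MvPolynomial σ ℂ ⧸ P) ≤ (Fintype.card σ : ℕ) := by
    refine (ringKrullDim_quotient_le P).trans ?_
    rw [MvPolynomial.ringKrullDim_of_isNoetherianRing, ringKrullDim_eq_zero_of_field, zero_add,
      Nat.card_eq_fintype_card]
  have hne : Nontrivial (MvPolynomial σ ℂ ⧸ P) := Ideal.Quotient.nontrivial_iff.2 hP.ne_top
  have h2 : 0 ≤ ringKrullDim (MvPolynomial σ ℂ ⧸ P) := ringKrullDim_nonneg_of_nontrivial
  generalize ringKrullDim (MvPolynomial σ ℂ ⧸ P) = D at h1 h2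
  induction D with
  | bot => exact absurd h2 (by simp)
  | coe D =>
    induction D with
    | top =>
      exfalso
      have h3 : ((⊤ : ℕ∞) : WithBot ℕ∞) ≤ (((Fintype.card σ : ℕ) : ℕ∞) : WithBot ℕ∞) := h1
      rw [WithBot.coe_le_coe, top_le_iff] at h3
      exact ENat.natCast_ne_top _ h3
    | coe d => exact ⟨d, rfl⟩

open Classical in
/-- the dimension of `S/P` as a natural number. -/
noncomputable def dm (P : Ideal (MvPolynomial σ ℂ)) : ℕ :=
  if h : ∃ d : ℕ, ringKrullDim (MvPolynomial σ ℂ ⧸ P) = d then h.choose else 0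

theorem dm_eq {P : Ideal (MvPolynomial σ ℂ)} (hP : P.IsPrime) :
    ringKrullDim (MvPolynomial σ ℂ ⧸ P) = (dm P : ℕ) := by
  have h := exists_dm hP
  rw [dm, dif_pos h]
  exact h.choose_spec

/-- homogeneous prime ideal -/
structure HP (P : Ideal (MvPolynomial σ ℂ)) : Prop where
  prime : P.IsPrime
  homog : ∀ f ∈ P, ∀ d, homogeneousComponent d f ∈ P

theorem comp_rel {P₀ : Ideal (MvPolynomial σ ℂ)} (hP₀ : HP P₀)
    {α : Type*} [Fintype α] (g : α → MvPolynomial σ ℂ)
    (hg : ∀ a, ∃ d, (g a).IsHomogeneous d) {q : σ → ℂ} (hq0 : q ∈ cone P₀)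
    (hq : ∀ a, eval q (g a) = 0) :
    ∃ P : Ideal (MvPolynomial σ ℂ), HP P ∧ P₀ ≤ P ∧ (∀ a, g a ∈ P) ∧ q ∈ cone P ∧
      dm P₀ ≤ dm P + Fintype.card α := by
  obtain ⟨P, h1, h2, h3, h4, h5, h6⟩ :=
    exists_component_rel P₀ hP₀.prime hP₀.homog g hg q hq0 hq
  refine ⟨P, ⟨h1, h2⟩, h3, h4, h5, ?_⟩
  rw [dm_eq hP₀.prime, dm_eq h1] at h6
  exact_mod_cast h6

theorem comp_abs {α : Type*} [Fintype α] (g : α → MvPolynomial σ ℂ)
    (hg : ∀ a, ∃ d, (g a).IsHomogeneous d) {q : σ → ℂ} (hq : ∀ a, eval q (g a) = 0) :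
    ∃ P : Ideal (MvPolynomial σ ℂ), HP P ∧ (∀ a, g a ∈ P) ∧ q ∈ cone P ∧
      Fintype.card σ ≤ dm P + Fintype.card α := by
  obtain ⟨P, h1, h2, h3, h4, h5⟩ := exists_component g hg q hq
  refine ⟨P, ⟨h1, h2⟩, h3, h4, ?_⟩
  rw [dm_eq h1] at h5
  exact_mod_cast h5

theorem ne_zero_of_dm {P : Ideal (MvPolynomial σ ℂ)} (hP : HP P) {β : Type*} [Fintype β]
    (l : β → MvPolynomial σ ℂ) (hl : ∀ b, eval (0 : σ → ℂ) (l b) = 0)
    (hdim : Fintype.card β < dm P) :
    ∃ x ∈ cone P, x ≠ 0 ∧ ∀ b, eval x (l b) = 0 := by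
  apply exists_ne_zero P hP.prime hP.homog l hl
  rw [dm_eq hP.prime]
  exact_mod_cast hdim

end dm

variable {ι κ : Type*} [Fintype ι] [DecidableEq ι] [Fintype κ] [DecidableEq κ]

theorem ext_HP {P : Ideal (MvPolynomial ι ℂ)} (hP : HP P) : HP (ext P κ) :=
  ⟨ext_isPrime hP.prime, ext_homog hP.prime hP.homog⟩

theorem dm_ext {P : Ideal (MvPolynomial ι ℂ)} (hP : HP P) :
    dm (ext P κ) = dm P + Fintype.card κ := by
  have h := dim_ext (κ := κ) hP.prime
  rw [dm_eq (ext_isPrime hP.prime), dm_eq hP.prime] at h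
  exact_mod_cast h

theorem dd_homog' {f : MvPolynomial ι ℂ} {d : ℕ} (hf : f.IsHomogeneous d) (v : ι → ℂ) :
    (dd v f).IsHomogeneous (d - 1) := by
  refine IsHomogeneous.sum _ _ _ fun i _ => ?_
  have := (isHomogeneous_C ι (v i)).mul (hf.pderiv (i := i))
  simpa using this

/-- A form of the ideal which is singular somewhere on the cone is singular at a point of every
large subcone. -/
theorem exists_singular_in {I : Ideal (MvPolynomial ι ℂ)} {r d : ℕ} (hI : Smooth I r)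
    {F : MvPolynomial ι ℂ} (hF : F ∈ I) (hd : F.IsHomogeneous d) {x : ι → ℂ} (hx : x ∈ cone I)
    (hx0 : x ≠ 0) (hs : dif F x = 0) {P : Ideal (MvPolynomial ι ℂ)} (hP : HP P)
    (hdim : 2 * r + 1 ≤ dm P) : ∃ z ∈ cone P, z ≠ 0 ∧ dif F z = 0 := by
  obtain ⟨h, l, hhI, hhom, hli, hmat⟩ := exists_frame hI hx hx0
  have hdet : (matAt h l x).det ≠ 0 := by rw [hmat]; simp
  obtain ⟨z₀, hz₀⟩ := exists_mem_cone hP.prime
  have h0P := zero_mem_of_homog hP.homog hz₀
  obtain ⟨Q, hQ, hPQ, hgQ, hqQ, hdQ⟩ := comp_rel (ext_HP (κ := ι) hP)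
    (Sum.elim (fun i => rename Sum.inr (h i)) (fun j => rename Sum.inr (dd (l j) F)) :
      Fin r ⊕ Fin r → MvPolynomial (ι ⊕ ι) ℂ)
    (by
      rintro (i | j)
      · obtain ⟨e, he⟩ := hhom i
        exact ⟨e, he.rename_isHomogeneous⟩
      · exact ⟨d - 1, (dd_homog' hd (l j)).rename_isHomogeneous⟩)
    (q := Sum.elim 0 x)
    (by
      rw [mem_cone_ext]
      exact h0P)
    (by
      rintro (i | j)
      · simp only [Sum.elim_inl, eval_rename, Sum.elim_comp_inr]
        exact hx _ (hhI i)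
      · simp only [Sum.elim_inr, eval_rename, Sum.elim_comp_inr]
        rw [eval_dd, hs, zero_dotProduct])
  rw [dm_ext hP, Fintype.card_sum, Fintype.card_fin] at hdQ
  let Q₂ : Ideal (MvPolynomial ι ℂ) :=
    Q.comap (rename Sum.inr : MvPolynomial ι ℂ →ₐ[ℂ] MvPolynomial (ι ⊕ ι) ℂ)
  have hQp := hQ.prime
  have hQ₂ : Q₂.IsPrime := Ideal.comap_isPrime _ _
  have hc₂ : ∀ z ∈ cone Q, (fun i => z (Sum.inr i)) ∈ cone Q₂ := by
    intro z hz f hf
    have := hz _ (Ideal.mem_comap.1 hf)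
    rwa [eval_rename] at this
  have hxQ₂ : x ∈ cone Q₂ := by
    have h := hc₂ (Sum.elim 0 x) hqQ
    simpa only [Sum.elim_inr] using h
  have hhQ₂ : ∀ i, h i ∈ Q₂ := fun i => hgQ (Sum.inl i)
  have hdQ₂ : ∀ j, dd (l j) F ∈ Q₂ := fun j => hgQ (Sum.inr j)
  have hIQ₂ : I ≤ Q₂ := le_of_local hI h hhI hx hx0 hli hQ₂ hhQ₂ hxQ₂
  have hD : (mat h l).det ∉ Q₂ := fun hm => hdet (by rw [← eval_det_mat]; exact hxQ₂ _ hm)
  have hdF : ∀ v, dd v F ∈ Q₂ := by
    intro v
    have key : (mat h l).det * dd v F ∈ Q₂ := by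
      apply mem_of_cone hQ₂
      intro z hz
      have h1 := frame_id hI h hhI l hx hx0 hdet (cone_anti hIQ₂ hz) (mem_N.2 ⟨F, hF, rfl⟩)
      have h2 : ∀ j, dif F z ⬝ᵥ l j = 0 := fun j => by
        rw [← eval_dd]; exact hz _ (hdQ₂ j)
      simp only [h2, zero_mul, Finset.sum_const_zero, zero_smul] at h1
      rw [map_mul, eval_det_mat, eval_dd, ← smul_eq_mul, ← smul_dotProduct, h1, zero_dotProduct]
    exact (hQ₂.mem_or_mem key).resolve_left hD
  obtain ⟨z, hz, hz0, hzl⟩ := ne_zero_of_dm hQ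
    (fun i : ι => (X (Sum.inl i) - X (Sum.inr i) : MvPolynomial (ι ⊕ ι) ℂ)) (by simp)
    (by omega)
  have hzz : ∀ i, z (Sum.inl i) = z (Sum.inr i) := by
    intro i
    have := hzl i
    simpa [sub_eq_zero] using this
  refine ⟨fun i => z (Sum.inl i), ?_, ?_, ?_⟩
  · have := cone_anti hPQ hz
    rwa [mem_cone_ext] at this
  · intro h0
    apply hz0
    funext s
    rcases s with i | i
    · exact congrFun h0 i
    · rw [← hzz]
      exact congrFun h0 i
  · have h1 := hc₂ z hz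
    have h2 : (fun i => z (Sum.inr i)) = fun i => z (Sum.inl i) := by
      funext i; exact (hzz i).symm
    rw [h2] at h1
    funext i
    have h3 := h1 _ (hdF (Pi.single i 1))
    rw [dd_single] at h3
    exact h3

/-- the contact lemma: a fixed vector can be conormal only along small subcones. -/
theorem zstar {I : Ideal (MvPolynomial ι ℂ)} {r : ℕ} (hI : Smooth I r)
    {P : Ideal (MvPolynomial ι ℂ)} (hP : HP P) (hIP : I ≤ P) (hdim : r + 1 ≤ dm P)
    {s : ι → ℂ} (hs : ∀ x ∈ cone P, x ≠ 0 → s ∈ N I x) {y : ι → ℂ} (hy : y ∈ cone I) :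
    s ⬝ᵥ y = 0 := by
  by_contra hsy
  have hy0 : y ≠ 0 := by rintro rfl; simp at hsy
  obtain ⟨h, l, hhI, hhom, hli, hmat⟩ := exists_frame hI hy hy0
  obtain ⟨z₀, hz₀⟩ := exists_mem_cone hP.prime
  have h0P := zero_mem_of_homog hP.homog hz₀
  -- the substitution `x + τ y`
  let Φ : MvPolynomial ι ℂ →ₐ[ℂ] MvPolynomial (ι ⊕ Unit) ℂ :=
    aeval fun i => X (Sum.inl i) + C (y i) * X (Sum.inr ())
  have hΦ : ∀ (f : MvPolynomial ι ℂ) (z : ι ⊕ Unit → ℂ),
      eval z (Φ f) = eval ((fun i => z (Sum.inl i)) + z (Sum.inr ()) • y) f := by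
    intro f z
    have : ((aeval z : MvPolynomial (ι ⊕ Unit) ℂ →ₐ[ℂ] ℂ).comp Φ) =
        aeval ((fun i => z (Sum.inl i)) + z (Sum.inr ()) • y) := by
      apply MvPolynomial.algHom_ext
      intro i
      simp [Φ, mul_comm]
    have h2 := congrArg (fun ψ => ψ f) this
    simpa [aeval_eq_eval] using h2
  have hΦh : ∀ (f : MvPolynomial ι ℂ) (d : ℕ), f.IsHomogeneous d → (Φ f).IsHomogeneous d := by
    intro f d hf
    have := hf.aeval (fun i => (X (Sum.inl i) + C (y i) * X (Sum.inr ()) :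
      MvPolynomial (ι ⊕ Unit) ℂ)) (n := 1) (fun i =>
        (isHomogeneous_X _ _).add (isHomogeneous_C_mul_X _ _))
    rwa [one_mul] at this
  obtain ⟨Q, hQ, hPQ, hgQ, hqQ, hdQ⟩ := comp_rel (ext_HP (κ := Unit) hP)
    (fun i : Fin r => Φ (h i))
    (fun i => by
      obtain ⟨e, he⟩ := hhom i
      exact ⟨e, hΦh _ _ he⟩)
    (q := Sum.elim 0 (fun _ => 1))
    (by
      rw [mem_cone_ext]
      exact h0P)
    (by
      intro i
      rw [hΦ]
      simp only [Sum.elim_inl, Sum.elim_inr, one_smul]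
      have : ((fun i => (0 : ι → ℂ) i) + y) = y := by funext i; simp
      rw [this]
      exact hy _ (hhI i))
  rw [dm_ext hP, Fintype.card_unit, Fintype.card_fin] at hdQ
  have hQp := hQ.prime
  have hΦq : ∀ f, eval (Sum.elim 0 (fun _ => 1) : ι ⊕ Unit → ℂ) (Φ f) = eval y f := by
    intro f
    rw [hΦ]
    simp only [Sum.elim_inl, Sum.elim_inr, one_smul]
    have : ((fun i => (0 : ι → ℂ) i) + y) = y := by funext i; simp
    rw [this]
  have hIQ : ∀ f ∈ I, Φ f ∈ Q := by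
    intro f hf
    obtain ⟨u, hu, huf⟩ := L0 hI h hhI hy hy0 hli hf
    have h1 : Ideal.span (Set.range h) ≤ Q.comap Φ := by
      rw [Ideal.span_le]; rintro _ ⟨i, rfl⟩; exact hgQ i
    have h2 : Φ (u * f) ∈ Q := h1 huf
    rw [map_mul] at h2
    refine (hQp.mem_or_mem h2).resolve_left fun h3 => hu ?_
    rw [← hΦq]
    exact hqQ _ h3
  obtain ⟨z, hz, hz0, hzl⟩ := ne_zero_of_dm hQ
    (fun _ : Unit => (X (Sum.inr ()) : MvPolynomial (ι ⊕ Unit) ℂ)) (by simp)
    (by rw [Fintype.card_unit]; omega)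
  have hτ : z (Sum.inr ()) = 0 := by simpa using hzl ()
  set x : ι → ℂ := fun i => z (Sum.inl i) with hxdef
  have hx : x ∈ cone P := by
    have := cone_anti hPQ hz
    rwa [mem_cone_ext] at this
  have hx0 : x ≠ 0 := by
    intro h0
    apply hz0
    funext s
    rcases s with i | i
    · exact congrFun h0 i
    · exact hτ
  obtain ⟨f, hf, hfs⟩ := mem_N.1 (hs x hx hx0)
  obtain ⟨G, hG⟩ : ∃ G, Φ f - rename Sum.inl f = X (Sum.inr ()) * G := by
    have key : ∀ f : MvPolynomial ι ℂ, Φ f - rename Sum.inl f ∈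
        Ideal.span {(X (Sum.inr ()) : MvPolynomial (ι ⊕ Unit) ℂ)} := by
      intro f
      rw [← Ideal.Quotient.eq]
      have h1 : (Ideal.Quotient.mkₐ ℂ (Ideal.span {(X (Sum.inr ()) :
          MvPolynomial (ι ⊕ Unit) ℂ)})).comp Φ =
          (Ideal.Quotient.mkₐ ℂ _).comp (rename Sum.inl) := by
        apply MvPolynomial.algHom_ext
        intro i
        refine Ideal.Quotient.eq.2 ?_
        have e : Φ (X i) - rename Sum.inl (X i) = C (y i) * X (Sum.inr ()) := by simp [Φ]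
        change Φ (X i) - rename Sum.inl (X i) ∈ _
        rw [e]
        exact Ideal.mul_mem_left _ _ (Ideal.mem_span_singleton_self _)
      exact congrArg (fun φ => φ f) h1
    exact Ideal.mem_span_singleton.1 (key f)
  have hGQ : G ∈ Q := by
    have h1 : X (Sum.inr ()) * G ∈ Q := by
      rw [← hG]
      exact Q.sub_mem (hIQ f hf) (hPQ (rename_mem_ext (hIP hf)))
    refine (hQp.mem_or_mem h1).resolve_left fun h2 => ?_
    have := hqQ _ h2
    simp at this
  -- the derivative in the direction `y`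
  have h1 : (ln x y f) = Polynomial.C (eval x f) + Polynomial.X *
      (aeval (Sum.elim (fun i => Polynomial.C (x i)) (fun _ => Polynomial.X) :
        ι ⊕ Unit → Polynomial ℂ) G) := by
    apply Polynomial.funext
    intro t
    have h2 := congrArg (eval (Sum.elim x (fun _ => t) : ι ⊕ Unit → ℂ)) hG
    rw [map_sub, hΦ, eval_rename, map_mul, eval_X] at h2
    simp only [Sum.elim_inl, Sum.elim_inr, Sum.elim_comp_inl] at h2
    rw [eval_ln, Polynomial.eval_add, Polynomial.eval_C, Polynomial.eval_mul, Polynomial.eval_X]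
    have h3 : (aeval (Sum.elim (fun i => Polynomial.C (x i)) (fun _ => Polynomial.X) :
        ι ⊕ Unit → Polynomial ℂ) G).eval t = eval (Sum.elim x (fun _ => t)) G := by
      have h4 : ((Polynomial.aeval t : Polynomial ℂ →ₐ[ℂ] ℂ).comp
          (aeval (Sum.elim (fun i => Polynomial.C (x i)) (fun _ => Polynomial.X)) :
            MvPolynomial (ι ⊕ Unit) ℂ →ₐ[ℂ] Polynomial ℂ)) =
          aeval (Sum.elim x (fun _ => t)) := by
        apply MvPolynomial.algHom_ext
        rintro (i | i)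
        · simp
        · simp
      have h5 := congrArg (fun φ => φ G) h4
      simpa [aeval_eq_eval, Polynomial.aeval_def] using h5
    rw [h3, ← h2]
    have e : ((fun i => x i) + t • y) = x + t • y := rfl
    rw [e]
    ring
  have h2 : dif f x ⬝ᵥ y = eval (Sum.elim x (fun _ => 0)) G := by
    rw [← coeff_one_ln, h1, Polynomial.coeff_add, Polynomial.coeff_C, if_neg one_ne_zero,
      zero_add, Polynomial.coeff_X_mul, Polynomial.coeff_zero_eq_eval_zero]
    have h4 : ((Polynomial.aeval (0 : ℂ) : Polynomial ℂ →ₐ[ℂ] ℂ).comp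
        (aeval (Sum.elim (fun i => Polynomial.C (x i)) (fun _ => Polynomial.X)) :
          MvPolynomial (ι ⊕ Unit) ℂ →ₐ[ℂ] Polynomial ℂ)) =
        aeval (Sum.elim x (fun _ => 0)) := by
      apply MvPolynomial.algHom_ext
      rintro (i | i)
      · simp
      · simp
    have h5 := congrArg (fun φ => φ G) h4
    simpa [aeval_eq_eval, Polynomial.aeval_def] using h5
  rw [hfs] at h2
  apply hsy
  rw [h2]
  have h3 : (Sum.elim x (fun _ => 0) : ι ⊕ Unit → ℂ) = z := by
    funext s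
    rcases s with i | i
    · rfl
    · exact hτ.symm
  rw [h3]
  exact hz _ hGQ

end H94.Cubic
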