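import Pool.Agent.H94.Cubic.Sigma

/-!
# The nondegenerate case
-/

open MvPolynomial Filter Topology

set_option linter.unusedSectionVars false
set_option linter.unusedSimpArgs false
set_option linter.unusedVariables false

namespace H94.Cubic

open H89.Hart

variable {ι : Type*} [Fintype ι] [DecidableEq ι] {I : Ideal (MvPolynomial ι ℂ)} {r : ℕ}

theorem core (hS : Setup I r) (hcard : 17 * r + 1 ≤ Fintype.card ι)
    (hne : ∃ x ∈ cone I, x ≠ 0) :
    ∃ F : Fin r → MvPolynomial ι ℂ, ∃ d : Fin r → ℕ, (∀ i, (F i).IsHomogeneous (d i)) ∧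
      (∀ i, d i = 2 ∨ d i = 3) ∧ (∀ i, F i ∈ I) ∧
      ∀ x ∈ cone I, x ≠ 0 → LinearIndependent ℂ (fun i => dif (F i) x) := by
  classical
  obtain ⟨p, hp, hp0⟩ := hne
  obtain ⟨𝒢, g1, g2, g3⟩ := exists_complement I
  have hrank := finrank_S hS g1 g2 g3 hp hp0
  have hfin : FiniteDimensional ℂ 𝒢 := Submodule.finiteDimensional_of_le g1
  let b := Module.finBasis ℂ (S I p)
  let G := Module.finBasis ℂ 𝒢
  have hσ := fun j => exists_sigma hS hcard hp hp0 (b j).2
  choose σ hσ using hσ
  -- the sections are in `S`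
  have hσS : ∀ j, ∀ x ∈ cone I, x ≠ 0 → σ j x ∈ S I x := by
    intro j x hx hx0
    obtain ⟨z, hpz, hxz, -⟩ := exists_common hS hcard hp hp0 hx hx0 hx hx0
    obtain ⟨d, hd⟩ := hpz.exists_rel hS (b j).2
    exact (hσ j x hx hx0 z hpz hxz d hd).left_mem hx0
  have hQ := fun j => exists_quadric_sigma hS
    (fun x hx hx0 y hy hy0 => sigma_symm hS hcard hp hp0 (b j).2 (hσ j) hx hx0 hy hy0)
    (fun x hx hx0 => S_le_N I x (hσS j x hx hx0))
  choose Q hQI hQh hQd using hQ
  let Φ : Fin (Module.finrank ℂ (S I p)) ⊕ Fin (Module.finrank ℂ 𝒢) → MvPolynomial ι ℂ :=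
    Sum.elim Q (fun k => (G k : MvPolynomial ι ℂ))
  let δ : Fin (Module.finrank ℂ (S I p)) ⊕ Fin (Module.finrank ℂ 𝒢) → ℕ :=
    Sum.elim (fun _ => 2) (fun _ => 3)
  let e : Fin r ≃ Fin (Module.finrank ℂ (S I p)) ⊕ Fin (Module.finrank ℂ 𝒢) :=
    ((finSumFinEquiv).trans (finCongr hrank)).symm
  have hGC : ∀ k, (G k : MvPolynomial ι ℂ) ∈ C3 I := fun k => g1 (G k).2
  refine ⟨fun i => Φ (e i), fun i => δ (e i), ?_, ?_, ?_, ?_⟩
  · intro i
    dsimp only
    rcases e i with j | k
    · exact hQh j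
    · exact (mem_C3.1 (hGC k)).2
  · intro i
    dsimp only
    rcases e i with j | k
    · exact Or.inl rfl
    · exact Or.inr rfl
  · intro i
    dsimp only
    rcases e i with j | k
    · exact hQI j
    · exact (mem_C3.1 (hGC k)).1
  · intro x hx hx0
    have key : LinearIndependent ℂ (fun s => dif (Φ s) x) := by
      rw [Fintype.linearIndependent_iff]
      intro c hc
      rw [Fintype.sum_sum_type] at hc
      have h1 : ∀ j, dif (Φ (Sum.inl j)) x = σ j x := fun j => hQd j x hx hx0
      have h2 : ∀ k, dif (Φ (Sum.inr k)) x = dif (G k : MvPolynomial ι ℂ) x := fun k => rfl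
      simp only [h1, h2] at hc
      have h3 : ∑ j, c (Sum.inl j) • σ j x ∈ S I x :=
        Submodule.sum_mem _ fun j _ => Submodule.smul_mem _ _ (hσS j x hx hx0)
      obtain ⟨F, hF, hFx⟩ := mem_S.1 h3
      have h4 : dif F x = dif (-(∑ k, c (Sum.inr k) • (G k : MvPolynomial ι ℂ))) x := by
        have h5 : (-(∑ k, c (Sum.inr k) • (G k : MvPolynomial ι ℂ))) =
            (-1 : ℂ) • (∑ k, c (Sum.inr k) • (G k : MvPolynomial ι ℂ)) := by simp
        rw [hFx, h5, dif_smul, dif_sum]
        simp only [dif_smul]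
        rw [neg_one_smul]
        exact eq_neg_of_add_eq_zero_left hc
      have h5 := dif_injOn g1 g2 hx hx0 hF
        (Submodule.neg_mem _ (Submodule.sum_mem _ fun k _ => Submodule.smul_mem _ _ (G k).2)) h4
      have h6 : ∑ k, c (Sum.inr k) • G k = 0 := by
        apply Subtype.ext
        rw [neg_eq_zero] at h5
        simpa using h5
      have h7 := Fintype.linearIndependent_iff.1 G.linearIndependent _ h6
      have h8 : ∑ j, c (Sum.inl j) • σ j x = 0 := by
        have : ∑ k, c (Sum.inr k) • dif (G k : MvPolynomial ι ℂ) x = 0 :=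
          Finset.sum_eq_zero fun k _ => by rw [h7 k, zero_smul]
        rwa [this, add_zero] at hc
      obtain ⟨z, hpz, hxz, -⟩ := exists_common hS hcard hp hp0 hx hx0 hx hx0
      have hd := fun j => hpz.exists_rel hS (b j).2
      choose d hd using hd
      have r1 : Rel I p (∑ j, c (Sum.inl j) • (b j : ι → ℂ)) z (∑ j, c (Sum.inl j) • d j) :=
        Rel.sum _ fun j _ => (hd j).smul _
      have r2 : Rel I x (∑ j, c (Sum.inl j) • σ j x) z (∑ j, c (Sum.inl j) • d j) :=
        Rel.sum _ fun j _ => (hσ j x hx hx0 z hpz hxz _ (hd j)).smul _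
      rw [h8] at r2
      have h9 := hxz.unique hS r2 (Rel.zero x z)
      rw [h9] at r1
      have h10 := hpz.unique_left hS r1 (Rel.zero p z)
      have h11 : ∑ j, c (Sum.inl j) • b j = 0 := by
        apply Subtype.ext
        simpa using h10
      have h12 := Fintype.linearIndependent_iff.1 b.linearIndependent _ h11
      rintro (j | k)
      · exact h12 j
      · exact h7 k
    exact key.comp e e.injective

end H94.Cubic
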