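import Pool.Agent.H89.Hart.Zak

/-!
# Polar forms of cubics
-/

open MvPolynomial

set_option linter.unusedSectionVars false
set_option linter.unusedSimpArgs false
set_option linter.unusedVariables false

namespace H94.Cubic

open H89.Hart

variable {ι : Type*} [Fintype ι] [DecidableEq ι]

theorem pderiv_comm' (i j : ι) (f : MvPolynomial ι ℂ) :
    pderiv i (pderiv j f) = pderiv j (pderiv i f) := by
  have h : ⁅(pderiv i : Derivation ℂ (MvPolynomial ι ℂ) (MvPolynomial ι ℂ)),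
      (pderiv j : Derivation ℂ (MvPolynomial ι ℂ) (MvPolynomial ι ℂ))⁆ = 0 := by
    apply MvPolynomial.derivation_ext
    intro k
    rw [Derivation.commutator_apply, pderiv_X, pderiv_X]
    by_cases h1 : k = i <;> by_cases h2 : k = j <;> simp [h1, h2, Pi.single_apply, pderiv_X] 
    all_goals (try split_ifs) <;> simp
  have h2 := congrArg (fun D => D f) h
  simp only [Derivation.commutator_apply, Derivation.zero_apply] at h2
  exact sub_eq_zero.1 h2

/-- third order coefficients. -/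
noncomputable def c3 (F : MvPolynomial ι ℂ) (i j k : ι) : ℂ :=
  eval 0 (pderiv i (pderiv j (pderiv k F)))

theorem c3_swap12 (F : MvPolynomial ι ℂ) (i j k : ι) : c3 F i j k = c3 F j i k := by
  rw [c3, pderiv_comm', ← c3]

theorem c3_swap23 (F : MvPolynomial ι ℂ) (i j k : ι) : c3 F i j k = c3 F i k j := by
  rw [c3, pderiv_comm' j k, ← c3]

/-- the polar vector `T(x, y, ·)`. -/
noncomputable def H (F : MvPolynomial ι ℂ) (x y : ι → ℂ) : ι → ℂ :=
  fun k => ∑ i, ∑ j, x i * y j * c3 F i j k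

theorem H_comm (F : MvPolynomial ι ℂ) (x y : ι → ℂ) : H F x y = H F y x := by
  funext k
  simp only [H]
  rw [Finset.sum_comm]
  refine Finset.sum_congr rfl fun j _ => Finset.sum_congr rfl fun i _ => ?_
  rw [c3_swap12]; ring

theorem H_add (F : MvPolynomial ι ℂ) (x x' y : ι → ℂ) : H F (x + x') y = H F x y + H F x' y := by
  funext k
  simp only [H, Pi.add_apply, ← Finset.sum_add_distrib]
  refine Finset.sum_congr rfl fun j _ => Finset.sum_congr rfl fun i _ => ?_
  ring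

theorem H_smul (F : MvPolynomial ι ℂ) (c : ℂ) (x y : ι → ℂ) : H F (c • x) y = c • H F x y := by
  funext k
  simp only [H, Pi.smul_apply, smul_eq_mul, Finset.mul_sum]
  refine Finset.sum_congr rfl fun j _ => Finset.sum_congr rfl fun i _ => ?_
  ring

theorem H_add_right (F : MvPolynomial ι ℂ) (x y y' : ι → ℂ) :
    H F x (y + y') = H F x y + H F x y' := by
  rw [H_comm, H_add, H_comm F y, H_comm F y']

theorem H_smul_right (F : MvPolynomial ι ℂ) (c : ℂ) (x y : ι → ℂ) :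
    H F x (c • y) = c • H F x y := by
  rw [H_comm, H_smul, H_comm F y]

theorem H_dot (F : MvPolynomial ι ℂ) (x y z : ι → ℂ) : H F x y ⬝ᵥ z = H F x z ⬝ᵥ y := by
  simp only [H, dotProduct, Finset.sum_mul]
  have h1 : ∀ k, ∑ i, ∑ j, x i * y j * c3 F i j k * z k =
      ∑ i, ∑ j, x i * y j * c3 F i j k * z k := fun _ => rfl
  rw [Finset.sum_comm]
  conv_rhs => rw [Finset.sum_comm]
  refine Finset.sum_congr rfl fun i _ => ?_
  rw [Finset.sum_comm]
  refine Finset.sum_congr rfl fun k _ => Finset.sum_congr rfl fun j _ => ?_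
  rw [c3_swap23]; ring

theorem eval_homog_zero {f : MvPolynomial ι ℂ} (hf : f.IsHomogeneous 0) (x : ι → ℂ) :
    eval x f = eval 0 f := by
  have h := totalDegree_eq_zero_iff_eq_C.1 ((totalDegree_zero_iff_isHomogeneous _).2 hf)
  rw [h, eval_C, eval_C]

theorem eval_homog_one {f : MvPolynomial ι ℂ} (hf : f.IsHomogeneous 1) (x : ι → ℂ) :
    eval x f = ∑ i, x i * eval 0 (pderiv i f) := by
  have h1 := congrArg (eval x) hf.sum_X_mul_pderiv
  rw [one_smul, map_sum] at h1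
  rw [← h1]
  refine Finset.sum_congr rfl fun i _ => ?_
  rw [map_mul, eval_X, eval_homog_zero (hf.pderiv (i := i)) x]

theorem eval_homog_two {f : MvPolynomial ι ℂ} (hf : f.IsHomogeneous 2) (x : ι → ℂ) :
    eval x f = (1 / 2) * ∑ i, ∑ j, x i * x j * eval 0 (pderiv j (pderiv i f)) := by
  have h1 := congrArg (eval x) hf.sum_X_mul_pderiv
  rw [map_sum, map_nsmul] at h1
  have h2 : ∀ i, eval x (X i * pderiv i f) =
      ∑ j, x i * x j * eval 0 (pderiv j (pderiv i f)) := by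
    intro i
    rw [map_mul, eval_X, eval_homog_one (hf.pderiv (i := i)) x, Finset.mul_sum]
    refine Finset.sum_congr rfl fun j _ => ?_
    ring
  simp only [h2] at h1
  rw [h1]
  simp

theorem dif_eq_H {F : MvPolynomial ι ℂ} (hF : F.IsHomogeneous 3) (x : ι → ℂ) :
    dif F x = (1 / 2 : ℂ) • H F x x := by
  funext k
  simp only [dif, H, Pi.smul_apply, smul_eq_mul]
  rw [eval_homog_two (hF.pderiv (i := k)) x, Finset.sum_comm]
  congr 1
  refine Finset.sum_congr rfl fun j _ => Finset.sum_congr rfl fun i _ => ?_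
  rw [c3]; ring

/-- gradients of a cubic along a plane. -/
theorem dif_line {F : MvPolynomial ι ℂ} (hF : F.IsHomogeneous 3) (x y : ι → ℂ) (s t : ℂ) :
    dif F (s • x + t • y) = s ^ 2 • dif F x + (s * t) • H F x y + t ^ 2 • dif F y := by
  rw [dif_eq_H hF, dif_eq_H hF, dif_eq_H hF]
  simp only [H_add, H_smul, H_add_right, H_smul_right, H_comm F y x, smul_add, smul_smul]
  module

theorem eval_eq_H {F : MvPolynomial ι ℂ} (hF : F.IsHomogeneous 3) (x : ι → ℂ) :
    eval x F = (1 / 6 : ℂ) * (H F x x ⬝ᵥ x) := by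
  have h1 := congrArg (eval x) hF.sum_X_mul_pderiv
  rw [map_sum, map_nsmul] at h1
  have h2 : ∑ i, eval x (X i * pderiv i F) = dif F x ⬝ᵥ x := by
    simp [dotProduct, dif, mul_comm]
  rw [h2, dif_eq_H hF, smul_dotProduct, smul_eq_mul, nsmul_eq_mul] at h1
  push_cast at h1
  linear_combination (-1 / 3) * h1

/-- values of a cubic on a span of three vectors. -/
theorem eval_plane {F : MvPolynomial ι ℂ} (hF : F.IsHomogeneous 3) (x y z : ι → ℂ) (s t u : ℂ) :
    6 * eval (s • x + t • y + u • z) F =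
      s ^ 3 * (H F x x ⬝ᵥ x) + 3 * s ^ 2 * t * (H F x x ⬝ᵥ y) + 3 * s * t ^ 2 * (H F y y ⬝ᵥ x) +
      t ^ 3 * (H F y y ⬝ᵥ y) + 3 * s ^ 2 * u * (H F x x ⬝ᵥ z) + 6 * s * t * u * (H F x y ⬝ᵥ z) +
      3 * t ^ 2 * u * (H F y y ⬝ᵥ z) + 3 * s * u ^ 2 * (H F z z ⬝ᵥ x) +
      3 * t * u ^ 2 * (H F z z ⬝ᵥ y) + u ^ 3 * (H F z z ⬝ᵥ z) := by
  have e1 : H F x y ⬝ᵥ x = H F x x ⬝ᵥ y := H_dot F x y x
  have e2 : H F x z ⬝ᵥ x = H F x x ⬝ᵥ z := H_dot F x z x
  have e3 : H F x y ⬝ᵥ y = H F y y ⬝ᵥ x := by rw [H_comm, H_dot]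
  have e4 : H F y z ⬝ᵥ y = H F y y ⬝ᵥ z := H_dot F y z y
  have e5 : H F x z ⬝ᵥ z = H F z z ⬝ᵥ x := by rw [H_comm, H_dot]
  have e6 : H F y z ⬝ᵥ z = H F z z ⬝ᵥ y := by rw [H_comm, H_dot]
  have e7 : H F x z ⬝ᵥ y = H F x y ⬝ᵥ z := H_dot F x z y
  have e8 : H F y z ⬝ᵥ x = H F x y ⬝ᵥ z := by rw [H_dot, H_comm]
  rw [eval_eq_H hF]
  simp only [H_add, H_smul, H_add_right, H_smul_right, H_comm F y x, H_comm F z x, H_comm F z y,
    dotProduct_add, add_dotProduct, smul_dotProduct, dotProduct_smul, smul_eq_mul, e1, e2, e3, e4,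
    e5, e6, e7, e8]
  ring

end H94.Cubic
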