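import Pool.Agent.H94.Cubic.Good
import Pool.Agent.H94.Cubic.Tri

/-!
# The cubics in the ideal: singular cubics, the three bundles
-/

open MvPolynomial

set_option linter.unusedSectionVars false
set_option linter.unusedSimpArgs false
set_option linter.unusedVariables false

namespace H94.Cubic

open H89.Hart

variable {ι : Type*} [Fintype ι] [DecidableEq ι]

/-- cubic forms in the ideal. -/
noncomputable def C3 (I : Ideal (MvPolynomial ι ℂ)) : Submodule ℂ (MvPolynomial ι ℂ) :=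
  I.restrictScalars ℂ ⊓ homogeneousSubmodule ι ℂ 3

theorem mem_C3 {I : Ideal (MvPolynomial ι ℂ)} {F : MvPolynomial ι ℂ} :
    F ∈ C3 I ↔ F ∈ I ∧ F.IsHomogeneous 3 := Iff.rfl

/-- the span of the cubic forms in the ideal which are singular somewhere on the cone. -/
noncomputable def K (I : Ideal (MvPolynomial ι ℂ)) : Submodule ℂ (MvPolynomial ι ℂ) :=
  Submodule.span ℂ {F | F ∈ C3 I ∧ ∃ x ∈ cone I, x ≠ 0 ∧ dif F x = 0}

theorem K_le (I : Ideal (MvPolynomial ι ℂ)) : K I ≤ C3 I :=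
  Submodule.span_le.2 fun _ h => h.1

/-- its gradients at `x`. -/
noncomputable def S (I : Ideal (MvPolynomial ι ℂ)) (x : ι → ℂ) : Submodule ℂ (ι → ℂ) :=
  (K I).map (difLin x)

theorem mem_S {I : Ideal (MvPolynomial ι ℂ)} {x v : ι → ℂ} :
    v ∈ S I x ↔ ∃ F ∈ K I, dif F x = v := by
  simp [S, Submodule.mem_map, difLin]

theorem S_le_N (I : Ideal (MvPolynomial ι ℂ)) (x : ι → ℂ) : S I x ≤ N I x := by
  intro v hv
  obtain ⟨F, hF, rfl⟩ := mem_S.1 hv
  exact mem_N.2 ⟨F, (mem_C3.1 (K_le I hF)).1, rfl⟩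

instance (I : Ideal (MvPolynomial ι ℂ)) : FiniteDimensional ℂ (C3 I) := by
  have h : FiniteDimensional ℂ (homogeneousSubmodule ι ℂ 3) :=
    Module.Finite.iff_fg.2 (homogeneousSubmodule_fg ι ℂ 3)
  exact Submodule.finiteDimensional_of_le (inf_le_right : C3 I ≤ homogeneousSubmodule ι ℂ 3)

instance (I : Ideal (MvPolynomial ι ℂ)) : FiniteDimensional ℂ (K I) :=
  Submodule.finiteDimensional_of_le (K_le I)

/-- the standing assumptions. -/
structure Setup (I : Ideal (MvPolynomial ι ℂ)) (r : ℕ) : Prop where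
  smooth : Smooth I r
  pos : 1 ≤ r
  cub : ∀ x ∈ cone I, x ≠ 0 → ∀ v ∈ N I x, ∃ F ∈ C3 I, dif F x = v
  nondeg : ∀ s : ι → ℂ, (∀ x ∈ cone I, s ⬝ᵥ x = 0) → s = 0

variable {I : Ideal (MvPolynomial ι ℂ)} {r : ℕ}

/-- A complement of the singular cubics. -/
theorem exists_complement (I : Ideal (MvPolynomial ι ℂ)) :
    ∃ 𝒢 : Submodule ℂ (MvPolynomial ι ℂ), 𝒢 ≤ C3 I ∧ K I ⊓ 𝒢 = ⊥ ∧ K I ⊔ 𝒢 = C3 I := by
  obtain ⟨G, hG⟩ := Submodule.exists_isCompl (K I)
  refine ⟨G ⊓ C3 I, inf_le_right, ?_, ?_⟩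
  · rw [← inf_assoc, hG.inf_eq_bot, bot_inf_eq]
  · rw [← sup_inf_assoc_of_le _ (K_le I), hG.sup_eq_top, top_inf_eq]

theorem dif_injOn {𝒢 : Submodule ℂ (MvPolynomial ι ℂ)} (h1 : 𝒢 ≤ C3 I) (h2 : K I ⊓ 𝒢 = ⊥)
    {x : ι → ℂ} (hx : x ∈ cone I) (hx0 : x ≠ 0) {F G : MvPolynomial ι ℂ} (hF : F ∈ K I)
    (hG : G ∈ 𝒢) (h : dif F x = dif G x) : G = 0 := by
  have h3 : F - G ∈ K I := by
    refine Submodule.subset_span ⟨Submodule.sub_mem _ (K_le I hF) (h1 hG), x, hx, hx0, ?_⟩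
    rw [dif_sub, h, sub_self]
  have h4 : G ∈ K I := by
    have := Submodule.sub_mem _ hF h3
    rwa [sub_sub_cancel] at this
  have : G ∈ K I ⊓ 𝒢 := ⟨h4, hG⟩
  rw [h2] at this
  exact (Submodule.mem_bot ℂ).1 this

theorem finrank_S (hS : Setup I r) {𝒢 : Submodule ℂ (MvPolynomial ι ℂ)} (h1 : 𝒢 ≤ C3 I)
    (h2 : K I ⊓ 𝒢 = ⊥) (h3 : K I ⊔ 𝒢 = C3 I) {x : ι → ℂ} (hx : x ∈ cone I) (hx0 : x ≠ 0) :
    Module.finrank ℂ (S I x) + Module.finrank ℂ 𝒢 = r := by
  have hfin : FiniteDimensional ℂ 𝒢 := Submodule.finiteDimensional_of_le h1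
  have hinj : Function.Injective ((difLin x).domRestrict 𝒢) := by
    rw [← LinearMap.ker_eq_bot, LinearMap.ker_eq_bot']
    intro G hG
    apply Subtype.ext
    refine dif_injOn h1 h2 hx hx0 (Submodule.zero_mem (K I)) G.2 ?_
    rw [dif_zero]
    exact hG.symm
  have hr : Module.finrank ℂ (𝒢.map (difLin x)) = Module.finrank ℂ 𝒢 := by
    rw [← LinearMap.range_domRestrict]
    exact LinearMap.finrank_range_of_inj hinj
  have hsup : S I x ⊔ 𝒢.map (difLin x) = N I x := by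
    rw [S, ← Submodule.map_sup, h3]
    apply le_antisymm
    · rintro _ ⟨F, hF, rfl⟩
      exact mem_N.2 ⟨F, (mem_C3.1 hF).1, rfl⟩
    · intro v hv
      obtain ⟨F, hF, rfl⟩ := hS.cub x hx hx0 v hv
      exact ⟨F, hF, rfl⟩
  have hinf : S I x ⊓ 𝒢.map (difLin x) = ⊥ := by
    rw [Submodule.eq_bot_iff]
    rintro v ⟨⟨F, hF, rfl⟩, ⟨G, hG, hFG⟩⟩
    have := dif_injOn h1 h2 hx hx0 hF hG hFG.symm
    rw [← hFG, this]
    exact dif_zero x
  have h := Submodule.finrank_sup_add_finrank_inf_eq (S I x) (𝒢.map (difLin x))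
  rw [hsup, hinf, finrank_bot, add_zero, hS.smooth.rank x hx hx0, hr] at h
  exact h.symm

/-- The rank of `S`. -/
theorem exists_rank (hS : Setup I r) : ∃ a ≤ r, ∀ x ∈ cone I, x ≠ 0 →
    Module.finrank ℂ (S I x) = a := by
  obtain ⟨𝒢, h1, h2, h3⟩ := exists_complement I
  refine ⟨r - Module.finrank ℂ 𝒢, Nat.sub_le _ _, fun x hx hx0 => ?_⟩
  have := finrank_S hS h1 h2 h3 hx hx0
  omega

/-- vectors of partial derivatives. -/
noncomputable def gr (F : MvPolynomial ι ℂ) : ι → MvPolynomial ι ℂ := fun k => pderiv k F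

theorem ev_gr (F : MvPolynomial ι ℂ) (x : ι → ℂ) : ev x (gr F) = dif F x := rfl

theorem gr_homog {F : MvPolynomial ι ℂ} (hF : F.IsHomogeneous 3) (k : ι) :
    (gr F k).IsHomogeneous 2 := hF.pderiv

theorem Fib_sub (M : Submodule ℂ (MvPolynomial ι ℂ)) (x : ι → ℂ) :
    Fib (fun F : M => gr (F : MvPolynomial ι ℂ)) x = M.map (difLin x) := by
  apply le_antisymm
  · rw [Fib, Submodule.span_le]
    rintro _ ⟨F, rfl⟩
    exact ⟨F, F.2, rfl⟩
  · rintro _ ⟨F, hF, rfl⟩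
    exact Submodule.subset_span ⟨⟨F, hF⟩, rfl⟩

theorem Fib_N (hS : Setup I r) {x : ι → ℂ} (hx : x ∈ cone I) (hx0 : x ≠ 0) :
    Fib (fun F : C3 I => gr (F : MvPolynomial ι ℂ)) x = N I x := by
  rw [Fib_sub]
  apply le_antisymm
  · rintro _ ⟨F, hF, rfl⟩
    exact mem_N.2 ⟨F, (mem_C3.1 hF).1, rfl⟩
  · intro v hv
    obtain ⟨F, hF, rfl⟩ := hS.cub x hx hx0 v hv
    exact ⟨F, hF, rfl⟩

/-- the conormal bundle. -/
theorem bunN (hS : Setup I r) : Bun I (fun F : C3 I => gr (F : MvPolynomial ι ℂ)) 2 r where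
  homog F k := gr_homog (mem_C3.1 F.2).2 k
  rank x hx hx0 := by rw [Fib_N hS hx hx0]; exact hS.smooth.rank x hx hx0

/-- the bundle spanned by the singular cubics. -/
theorem bunS {a : ℕ} (ha : ∀ x ∈ cone I, x ≠ 0 → Module.finrank ℂ (S I x) = a) :
    Bun I (fun F : K I => gr (F : MvPolynomial ι ℂ)) 2 a where
  homog F k := gr_homog (mem_C3.1 (K_le I F.2)).2 k
  rank x hx hx0 := by rw [Fib_sub]; exact ha x hx hx0

/-- the transposed vectors. -/
noncomputable def col {k : ℕ} (F : Fin k → MvPolynomial ι ℂ) : ι → Fin k → MvPolynomial ι ℂ :=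
  fun i m => pderiv i (F m)

theorem finrank_col {k : ℕ} (F : Fin k → MvPolynomial ι ℂ) (x : ι → ℂ) :
    Module.finrank ℂ (Fib (col F) x) =
      Module.finrank ℂ (Submodule.span ℂ (Set.range fun m => dif (F m) x)) := by
  let M : Matrix (Fin k) ι ℂ := Matrix.of fun m i => eval x (pderiv i (F m))
  have h1 := Matrix.rank_eq_finrank_span_row M
  have h2 := Matrix.rank_eq_finrank_span_cols M
  rw [h1] at h2
  exact h2.symm

/-- the dual bundle. -/
theorem bunC {a : ℕ} (ha : ∀ x ∈ cone I, x ≠ 0 → Module.finrank ℂ (S I x) = a) {k : ℕ}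
    (b : Module.Basis (Fin k) ℂ (K I)) :
    Bun I (col (fun m => (b m : MvPolynomial ι ℂ))) 2 a where
  homog i m := (mem_C3.1 (K_le I (b m).2)).2.pderiv
  rank x hx hx0 := by
    rw [finrank_col, ← ha x hx hx0, S]
    have h1 := congrArg (Submodule.map (difLin x ∘ₗ (K I).subtype)) b.span_eq
    rw [Submodule.map_span, ← Set.range_comp, Submodule.map_comp, Submodule.map_subtype_top] at h1
    rw [← h1]
    rfl

theorem mem_Fib_col {k : ℕ} (F : Fin k → MvPolynomial ι ℂ) (x : ι → ℂ) (v : Fin k → ℂ) :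
    v ∈ Fib (col F) x ↔ ∃ e : ι → ℂ, ∀ m, v m = dif (F m) x ⬝ᵥ e := by
  rw [Fib, Submodule.mem_span_range_iff_exists_fun]
  constructor
  · rintro ⟨c, rfl⟩
    refine ⟨c, fun m => ?_⟩
    simp [Finset.sum_apply, dotProduct, dif, col, ev_apply, mul_comm]
  · rintro ⟨e, he⟩
    refine ⟨e, ?_⟩
    funext m
    rw [he]
    simp [Finset.sum_apply, dotProduct, dif, col, ev_apply, mul_comm]

/-- generic conormal spaces avoid a small subspace. -/
theorem goodN (hS : Setup I r) (U : Submodule ℂ (ι → ℂ)) {P : Ideal (MvPolynomial ι ℂ)}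
    (hP : HP P) (hIP : I ≤ P) (hdim : r + 1 + Module.finrank ℂ U ≤ dm P) :
    ∃ h : MvPolynomial ι ℂ, h ∉ P ∧ ∀ y ∈ cone P, y ≠ 0 → eval y h ≠ 0 → N I y ⊓ U = ⊥ := by
  obtain ⟨h, h1, h2⟩ := (bunN hS).good (d₀ := r + 1) (by omega) (fun φ hφ P hP hIP hd => by
    by_contra hcon
    push Not at hcon
    apply hφ
    apply hS.nondeg
    intro x hx
    refine zstar hS.smooth hP hIP hd (s := φ) (fun y hy hy0 => ?_) hx
    have := hcon y hy hy0
    rwa [Fib_N hS (cone_anti hIP hy) hy0] at this) U hP hIP hdim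
  refine ⟨h, h1, fun y hy hy0 hyh => ?_⟩
  rw [← Fib_N hS (cone_anti hIP hy) hy0]
  exact h2 y hy hy0 hyh

theorem expand {M : Submodule ℂ (MvPolynomial ι ℂ)} {k : ℕ} (b : Module.Basis (Fin k) ℂ M)
    {F : MvPolynomial ι ℂ} (hF : F ∈ M) :
    F = ∑ m, b.equivFun ⟨F, hF⟩ m • (b m : MvPolynomial ι ℂ) := by
  have h := congrArg Subtype.val (b.sum_equivFun ⟨F, hF⟩)
  simp only [Submodule.coe_sum, Submodule.coe_smul] at h
  exact h.symm

theorem goodC (hS : Setup I r) {a : ℕ}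
    (ha : ∀ x ∈ cone I, x ≠ 0 → Module.finrank ℂ (S I x) = a) {k : ℕ}
    (b : Module.Basis (Fin k) ℂ (K I)) (U : Submodule ℂ (Fin k → ℂ))
    {P : Ideal (MvPolynomial ι ℂ)} (hP : HP P) (hIP : I ≤ P)
    (hdim : 2 * r + 1 + Module.finrank ℂ U ≤ dm P) :
    ∃ h : MvPolynomial ι ℂ, h ∉ P ∧ ∀ y ∈ cone P, y ≠ 0 → eval y h ≠ 0 →
      Fib (col (fun m => (b m : MvPolynomial ι ℂ))) y ⊓ U = ⊥ := by
  refine (bunC ha b).good (d₀ := 2 * r + 1) (by omega) (fun φ hφ P hP hIP hd => ?_) U hP hIP hdim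
  by_contra hcon
  push Not at hcon
  apply hφ
  -- the functional on `K`
  let L : K I →ₗ[ℂ] ℂ := Fintype.linearCombination ℂ φ ∘ₗ b.equivFun.toLinearMap
  have hL : L = 0 := by
    have h1 : ∀ F : MvPolynomial ι ℂ, ∀ hF : F ∈ K I, L ⟨F, hF⟩ = 0 := by
      intro F hF
      refine Submodule.span_induction (p := fun F hF => L ⟨F, hF⟩ = 0) ?_ ?_ ?_ ?_ hF
      · rintro F ⟨hF1, x, hx, hx0, hs⟩
        obtain ⟨z, hz, hz0, hzs⟩ := exists_singular_in hS.smooth (mem_C3.1 hF1).1 (mem_C3.1 hF1).2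
          hx hx0 hs hP hd
        obtain ⟨e, he⟩ := (mem_Fib_col _ _ _).1 (hcon z hz hz0)
        have hFK : F ∈ K I := Submodule.subset_span ⟨hF1, x, hx, hx0, hs⟩
        have h2 := expand b hFK
        change ∑ m, b.equivFun ⟨F, hFK⟩ m • φ m = 0
        have h3 : (∑ m, b.equivFun ⟨F, hFK⟩ m • φ m) = dif F z ⬝ᵥ e := by
          have h5 : dif F z = dif (∑ m, b.equivFun ⟨F, hFK⟩ m • (b m : MvPolynomial ι ℂ)) z := by
            rw [← h2]
          rw [h5, dif_sum, sum_dotProduct]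
          refine Finset.sum_congr rfl fun m _ => ?_
          rw [dif_smul, smul_dotProduct, he]
        rw [h3, hzs, zero_dotProduct]
      · exact map_zero L
      · intro F G hF hG h h'
        have := map_add L ⟨F, hF⟩ ⟨G, hG⟩
        rw [h, h', add_zero] at this
        exact this
      · intro c F hF h
        have := map_smul L c ⟨F, hF⟩
        rw [h, smul_zero] at this
        exact this
    ext ⟨F, hF⟩
    exact h1 F hF
  funext m
  have h1 : L (b m) = φ m := by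
    change ∑ i, b.equivFun (b m) i • φ i = φ m
    simp only [Module.Basis.equivFun_self, ite_smul, one_smul, zero_smul]
    rw [Finset.sum_ite_eq, if_pos (Finset.mem_univ _)]
  rw [← h1, hL]
  rfl

/-- surjectivity onto pairs of gradients. -/
theorem surj_of_disjoint {k : ℕ} (b : Module.Basis (Fin k) ℂ (K I)) {x y : ι → ℂ}
    (h : Fib (col (fun m => (b m : MvPolynomial ι ℂ))) y ⊓
      Fib (col (fun m => (b m : MvPolynomial ι ℂ))) x = ⊥) :
    ∀ u ∈ S I x, ∀ v ∈ S I y, ∃ F ∈ K I, dif F x = u ∧ dif F y = v := by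
  intro u hu v hv
  let T : K I →ₗ[ℂ] (ι → ℂ) × (ι → ℂ) :=
    ((difLin x).prod (difLin y)) ∘ₗ (K I).subtype
  have key : (u, v) ∈ LinearMap.range T := by
    by_contra hcon
    obtain ⟨f, hf1, hf2⟩ := Submodule.exists_dual_map_eq_bot_of_notMem hcon inferInstance
    let e : ι → ℂ := fun i => f (Pi.single i 1, 0)
    let e' : ι → ℂ := fun i => f (0, Pi.single i 1)
    have hfe : ∀ p q : ι → ℂ, f (p, q) = p ⬝ᵥ e + q ⬝ᵥ e' := by
      intro p q
      have h1 : (p, q) = (∑ i, p i • ((Pi.single i (1 : ℂ) : ι → ℂ), (0 : ι → ℂ))) +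
          ∑ i, q i • ((0 : ι → ℂ), (Pi.single i (1 : ℂ) : ι → ℂ)) := by
        ext i
        · simp [Prod.fst_sum, Finset.sum_apply, Pi.single_apply]
        · simp [Prod.snd_sum, Finset.sum_apply, Pi.single_apply]
      rw [h1, map_add, map_sum, map_sum]
      simp only [map_smul, smul_eq_mul, dotProduct, e, e']
    have hT : ∀ F : K I, f (T F) = 0 := by
      intro F
      have : f (T F) ∈ (LinearMap.range T).map f := ⟨T F, ⟨F, rfl⟩, rfl⟩
      rw [hf2] at this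
      exact (Submodule.mem_bot ℂ).1 this
    have h2 : ∀ m, dif (b m : MvPolynomial ι ℂ) x ⬝ᵥ e + dif (b m : MvPolynomial ι ℂ) y ⬝ᵥ e' = 0 :=
      fun m => by rw [← hfe]; exact hT (b m)
    let w : Fin k → ℂ := fun m => dif (b m : MvPolynomial ι ℂ) x ⬝ᵥ e
    have hw : w = 0 := by
      have h3 : w ∈ Fib (col (fun m => (b m : MvPolynomial ι ℂ))) y ⊓
          Fib (col (fun m => (b m : MvPolynomial ι ℂ))) x := by
        refine ⟨(mem_Fib_col _ _ _).2 ⟨-e', fun m => ?_⟩, (mem_Fib_col _ _ _).2 ⟨e, fun m => rfl⟩⟩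
        rw [dotProduct_neg]
        exact eq_neg_of_add_eq_zero_left (h2 m)
      rw [h] at h3
      exact (Submodule.mem_bot ℂ).1 h3
    have hx : ∀ F ∈ K I, dif F x ⬝ᵥ e = 0 := by
      intro F hF
      have h4 : dif F x = dif (∑ m, b.equivFun ⟨F, hF⟩ m • (b m : MvPolynomial ι ℂ)) x := by
        rw [← expand b hF]
      rw [h4, dif_sum, sum_dotProduct]
      refine Finset.sum_eq_zero fun m _ => ?_
      rw [dif_smul, smul_dotProduct]
      have : dif (b m : MvPolynomial ι ℂ) x ⬝ᵥ e = 0 := congrFun hw m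
      rw [this, smul_zero]
    have hy : ∀ F ∈ K I, dif F y ⬝ᵥ e' = 0 := by
      intro F hF
      have h4 : dif F y = dif (∑ m, b.equivFun ⟨F, hF⟩ m • (b m : MvPolynomial ι ℂ)) y := by
        rw [← expand b hF]
      rw [h4, dif_sum, sum_dotProduct]
      refine Finset.sum_eq_zero fun m _ => ?_
      rw [dif_smul, smul_dotProduct]
      have h5 : dif (b m : MvPolynomial ι ℂ) x ⬝ᵥ e = 0 := congrFun hw m
      have h6 := h2 m
      rw [h5, zero_add] at h6
      rw [h6, smul_zero]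
    apply hf1
    obtain ⟨F, hF, rfl⟩ := mem_S.1 hu
    obtain ⟨G, hG, rfl⟩ := mem_S.1 hv
    rw [hfe, hx F hF, hy G hG, add_zero]
  obtain ⟨F, hF⟩ := key
  exact ⟨F, F.2, congrArg Prod.fst hF, congrArg Prod.snd hF⟩

end H94.Cubic
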