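import Pool.Agent.H94.Cubic.Pair

/-!
# Existence of points in very good position
-/

open MvPolynomial Filter Topology

set_option linter.unusedSectionVars false
set_option linter.unusedSimpArgs false
set_option linter.unusedVariables false

namespace H94.Cubic

open H89.Hart

variable {ι : Type*} [Fintype ι] [DecidableEq ι] {I : Ideal (MvPolynomial ι ℂ)} {r : ℕ}

theorem exists_cubic_frame (hS : Setup I r) {x : ι → ℂ} (hx : x ∈ cone I) (hx0 : x ≠ 0) :
    ∃ F : Fin r → MvPolynomial ι ℂ, (∀ i, F i ∈ C3 I) ∧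
      LinearIndependent ℂ (fun i => dif (F i) x) := by
  obtain ⟨σ, hσ⟩ := (bunN hS).exists_frame hx hx0
  exact ⟨fun i => (σ i : MvPolynomial ι ℂ), fun i => (σ i).2, hσ⟩

theorem line_cone (hS : Setup I r) {a w : ι → ℂ} (h : ∀ t : ℂ, a + t • w ∈ cone I) :
    ∀ s t : ℂ, s • a + t • w ∈ cone I := by
  have key : ∀ s t : ℂ, s ≠ 0 → s • a + t • w ∈ cone I := by
    intro s t hs
    have := smul_mem_cone hS.smooth (h (s⁻¹ * t)) s
    rw [smul_add, smul_smul, ← mul_assoc, mul_inv_cancel₀ hs, one_mul] at this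
    exact this
  intro s t
  have hcl : IsClosed {s : ℂ | s • a + t • w ∈ cone I} :=
    (isClosed_cone I).preimage (by fun_prop : Continuous fun s : ℂ => s • a + t • w)
  have hd : Dense ({0}ᶜ : Set ℂ) := dense_compl_singleton 0
  have hsub : ({0}ᶜ : Set ℂ) ⊆ {s : ℂ | s • a + t • w ∈ cone I} := fun s hs => key s t hs
  have := hcl.closure_subset_iff.2 hsub
  rw [hd.closure_eq] at this
  exact this (Set.mem_univ s)

theorem line_zero {a b : ι → ℂ} (h : ∀ s t : ℂ, s • a + t • b ∈ cone I)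
    {F : MvPolynomial ι ℂ} (hF : F ∈ C3 I) :
    H F a a ⬝ᵥ a = 0 ∧ H F a a ⬝ᵥ b = 0 ∧ H F b b ⬝ᵥ a = 0 ∧ H F b b ⬝ᵥ b = 0 := by
  have key : ∀ s t : ℂ, s ^ 3 * (H F a a ⬝ᵥ a) + 3 * s ^ 2 * t * (H F a a ⬝ᵥ b) +
      3 * s * t ^ 2 * (H F b b ⬝ᵥ a) + t ^ 3 * (H F b b ⬝ᵥ b) = 0 := by
    intro s t
    have h1 := eval_plane (mem_C3.1 hF).2 a b 0 s t 0
    rw [smul_zero, add_zero, h s t F (mem_C3.1 hF).1] at h1
    linear_combination -h1
  have k1 := key 1 0
  have k2 := key 0 1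
  have k3 := key 1 1
  have k4 := key 1 (-1)
  ring_nf at k1 k2 k3 k4
  refine ⟨k1, ?_, ?_, k2⟩
  · linear_combination (1 / 6) * k3 - (1 / 6) * k4 - (1 / 3) * k2
  · linear_combination (1 / 6) * k3 + (1 / 6) * k4 - (1 / 3) * k1

theorem line_of (hS : Setup I r) {a w : ι → ℂ} (ha : a ∈ cone I) (ha0 : a ≠ 0)
    {F : Fin r → MvPolynomial ι ℂ} (hF : ∀ i, F i ∈ C3 I)
    (hli : LinearIndependent ℂ (fun i => dif (F i) a)) (h0 : ∀ i, eval w (F i) = 0)
    (h1 : ∀ i, H (F i) a a ⬝ᵥ w = 0) (h2 : ∀ i, dif (F i) w ⬝ᵥ a = 0) :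
    ∀ s t : ℂ, s • a + t • w ∈ cone I := by
  apply line_cone hS
  apply line_mem hS.smooth F (fun i => (mem_C3.1 (hF i)).1) ha ha0 hli
  intro i t
  have h3 := (mem_C3.1 (hF i)).2
  have h4 := eval_plane h3 a w 0 1 t 0
  have h5 : H (F i) a a ⬝ᵥ a = 0 := by
    have := ha _ (mem_C3.1 (hF i)).1
    rw [eval_eq_H h3] at this
    simpa using this
  have h6 : H (F i) w w ⬝ᵥ w = 0 := by
    have := h0 i
    rw [eval_eq_H h3] at this
    simpa using this
  have h7 : H (F i) w w ⬝ᵥ a = 0 := by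
    have := h2 i
    rw [dif_eq_H h3, smul_dotProduct] at this
    simpa using this
  rw [one_smul, smul_zero, add_zero, h5, h6, h7, h1] at h4
  have h8 : (6 : ℂ) * eval (a + t • w) (F i) = 0 := by rw [h4]; ring
  simpa using h8

theorem plane_of (hS : Setup I r) {a b w : ι → ℂ} (ha : a ∈ cone I) (ha0 : a ≠ 0)
    {F : Fin r → MvPolynomial ι ℂ} (hF : ∀ i, F i ∈ C3 I)
    (hli : LinearIndependent ℂ (fun i => dif (F i) a))
    (hab : ∀ s t : ℂ, s • a + t • b ∈ cone I) (haw : ∀ s t : ℂ, s • a + t • w ∈ cone I)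
    (hbw : ∀ s t : ℂ, s • b + t • w ∈ cone I) (h1 : ∀ i, H (F i) a b ⬝ᵥ w = 0) :
    ∀ s t u : ℂ, s • a + t • b + u • w ∈ cone I := by
  have key : ∀ t u : ℂ, a + (t • b + u • w) ∈ cone I := by
    intro t u
    have h2 := line_mem hS.smooth F (fun i => (mem_C3.1 (hF i)).1) ha ha0 hli (t • b + u • w)
      (fun i τ => by
        obtain ⟨e1, e2, e3, e4⟩ := line_zero hab (hF i)
        obtain ⟨-, f2, f3, f4⟩ := line_zero haw (hF i)
        obtain ⟨-, g2, g3, -⟩ := line_zero hbw (hF i)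
        have h4 := eval_plane (mem_C3.1 (hF i)).2 a b w 1 (τ * t) (τ * u)
        rw [e1, e2, e3, e4, f2, f3, f4, g2, g3, h1] at h4
        have h5 : (1 : ℂ) • a + (τ * t) • b + (τ * u) • w = a + τ • (t • b + u • w) := by
          rw [one_smul, smul_add, smul_smul, smul_smul, add_assoc]
        rw [h5] at h4
        have h8 : (6 : ℂ) * eval (a + τ • (t • b + u • w)) (F i) = 0 := by rw [h4]; ring
        simpa using h8) 1
    rwa [one_smul] at h2
  intro s t u
  by_cases hs : s = 0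
  · subst hs
    rw [zero_smul, zero_add]
    exact hbw t u
  · have := smul_mem_cone hS.smooth (key (s⁻¹ * t) (s⁻¹ * u)) s
    rw [smul_add, smul_add, smul_smul, smul_smul, ← mul_assoc, ← mul_assoc,
      mul_inv_cancel₀ hs, one_mul, one_mul, ← add_assoc] at this
    exact this

theorem dif_dd_eq (F : MvPolynomial ι ℂ) (w a : ι → ℂ) : eval w (dd a F) = dif F w ⬝ᵥ a :=
  eval_dd a F w

theorem exists_generic {P : Ideal (MvPolynomial ι ℂ)} (hP : HP P) (hdm : 1 ≤ dm P)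
    {J : Type*} [Fintype J] (cond : J → (ι → ℂ) → Prop)
    (h : ∀ j, ∃ f : MvPolynomial ι ℂ, f ∉ P ∧ ∀ y ∈ cone P, y ≠ 0 → eval y f ≠ 0 → cond j y) :
    ∃ y ∈ cone P, y ≠ 0 ∧ ∀ j, cond j y := by
  choose f hf1 hf2 using h
  have hPp := hP.prime
  obtain ⟨y₀, hy₀, hy₀0, -⟩ := ne_zero_of_dm hP (fun b : Fin 0 => (0 : MvPolynomial ι ℂ))
    (fun b => b.elim0) (by rw [Fintype.card_fin]; omega)
  obtain ⟨k, hk⟩ := exists_coord hy₀0
  have hX : (X k : MvPolynomial ι ℂ) ∉ P := fun hm => hk (by simpa using hy₀ _ hm)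
  have hprod : (X k * ∏ j, f j : MvPolynomial ι ℂ) ∉ P := by
    intro hm
    rcases hPp.mem_or_mem hm with h1 | h1
    · exact hX h1
    · obtain ⟨j, -, hj⟩ := (hPp.prod_mem_iff).1 h1
      exact hf1 j hj
  have : ∃ y ∈ cone P, eval y (X k * ∏ j, f j : MvPolynomial ι ℂ) ≠ 0 := by
    by_contra hcon
    push Not at hcon
    exact hprod (mem_of_cone hPp hcon)
  obtain ⟨y, hy, hyf⟩ := this
  rw [map_mul, map_prod, eval_X] at hyf
  have hy0 : y ≠ 0 := by
    rintro rfl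
    exact left_ne_zero_of_mul hyf rfl
  refine ⟨y, hy, hy0, fun j => hf2 j y hy hy0 ?_⟩
  exact (Finset.prod_ne_zero_iff.1 (right_ne_zero_of_mul hyf)) j (Finset.mem_univ j)

/-- the existence theorem. -/
theorem EX (hS : Setup I r) {A T B : Type} [Fintype A] [Fintype T] [Fintype B]
    {p : ι → ℂ} (hp : p ∈ cone I) (hp0 : p ≠ 0) (pts : A → ι → ℂ)
    (hpts : ∀ a, pts a ∈ cone I ∧ pts a ≠ 0) (t1 t2 : T → ι → ℂ)
    (htr : ∀ t, t1 t ∈ cone I ∧ t1 t ≠ 0 ∧ ∀ s u : ℂ, s • t1 t + u • t2 t ∈ cone I)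
    (Us : B → Submodule ℂ (ι → ℂ)) (hU : ∀ b, Module.finrank ℂ (Us b) ≤ 3 * r)
    (hcard : 7 * r + 1 + 2 * r * Fintype.card A + r * Fintype.card T ≤ Fintype.card ι) :
    ∃ w : ι → ℂ, VG I p w ∧ (∀ a, VG I (pts a) w) ∧
      (∀ t, (∀ s u : ℂ, s • t1 t + u • w ∈ cone I) → (∀ s u : ℂ, s • t2 t + u • w ∈ cone I) →
        ∀ s u v : ℂ, s • t1 t + u • t2 t + v • w ∈ cone I) ∧
      ∀ b, N I w ⊓ Us b = ⊥ := by
  classical
  obtain ⟨ρ, hρ, hrank⟩ := exists_rank hS
  let bK := Module.finBasis ℂ (K I)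
  obtain ⟨Fp, hFp, hFpli⟩ := exists_cubic_frame hS hp hp0
  have hFa := fun a => exists_cubic_frame hS (hpts a).1 (hpts a).2
  choose Fa hFa hFali using hFa
  have hFt := fun t => exists_cubic_frame hS (htr t).1 (htr t).2.1
  choose Ft hFt hFtli using hFt
  let q : (Fin r × Fin 3) ⊕ ((A × Fin r × Fin 2) ⊕ (T × Fin r)) → MvPolynomial ι ℂ :=
    Sum.elim (fun i => ![Fp i.1, dd p (Fp i.1), lf (H (Fp i.1) p p)] i.2)
      (Sum.elim (fun i => ![dd (pts i.1) (Fa i.1 i.2.1), lf (H (Fa i.1 i.2.1) (pts i.1) (pts i.1))]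
        i.2.2) (fun i => lf (H (Ft i.1 i.2) (t1 i.1) (t2 i.1))))
  have hqh : ∀ c, ∃ d, 1 ≤ d ∧ (q c).IsHomogeneous d := by
    have h2 : ∀ {F : MvPolynomial ι ℂ} (v : ι → ℂ), F ∈ C3 I → (dd v F).IsHomogeneous 2 :=
      fun v hF => dd_homog' (mem_C3.1 hF).2 v
    rintro (⟨i, j⟩ | ⟨a, i, j⟩ | ⟨t, i⟩)
    · fin_cases j
      · exact ⟨3, by norm_num, (mem_C3.1 (hFp i)).2⟩
      · exact ⟨2, by norm_num, h2 _ (hFp i)⟩
      · exact ⟨1, le_rfl, lf_homog _⟩
    · fin_cases j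
      · exact ⟨2, by norm_num, h2 _ (hFa a i)⟩
      · exact ⟨1, le_rfl, lf_homog _⟩
    · exact ⟨1, le_rfl, lf_homog _⟩
  have hq0 : ∀ c, eval 0 (q c) = 0 := by
    intro c
    obtain ⟨d, hd, hc⟩ := hqh c
    have := eval_smul_homog hc 0 0
    rw [smul_zero, zero_pow (by omega), zero_mul] at this
    exact this
  obtain ⟨P, hP, hqP, h0P, hdP⟩ := comp_abs q (fun c => by
    obtain ⟨d, -, hd⟩ := hqh c
    exact ⟨d, hd⟩) hq0
  simp only [Fintype.card_sum, Fintype.card_prod, Fintype.card_fin] at hdP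
  have hq : ∀ z ∈ cone P, ∀ c, eval z (q c) = 0 := fun z hz c => hz _ (hqP c)
  have hlp : ∀ z ∈ cone P, ∀ s t : ℂ, s • p + t • z ∈ cone I := by
    intro z hz
    refine line_of hS hp hp0 hFp hFpli (fun i => ?_) (fun i => ?_) (fun i => ?_)
    · exact hq z hz (Sum.inl (i, 0))
    · have := hq z hz (Sum.inl (i, 2))
      rw [← eval_lf]; exact this
    · have := hq z hz (Sum.inl (i, 1))
      rw [← eval_dd]; exact this
  have hzI : ∀ z ∈ cone P, z ∈ cone I := by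
    intro z hz
    have := hlp z hz 0 1
    rwa [zero_smul, zero_add, one_smul] at this
  have hIP : I ≤ P := fun f hf => mem_of_cone hP.prime fun z hz => hzI z hz f hf
  have hla : ∀ z ∈ cone P, ∀ a, ∀ s t : ℂ, s • pts a + t • z ∈ cone I := by
    intro z hz a
    refine line_of hS (hpts a).1 (hpts a).2 (hFa a) (hFali a) (fun i => ?_) (fun i => ?_)
      (fun i => ?_)
    · exact hzI z hz _ (mem_C3.1 (hFa a i)).1
    · have := hq z hz (Sum.inr (Sum.inl (a, i, 1)))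
      rw [← eval_lf]; exact this
    · have := hq z hz (Sum.inr (Sum.inl (a, i, 0)))
      rw [← eval_dd]; exact this
  -- the conditions
  let pt : Option A → ι → ℂ := fun o => o.elim p pts
  have hpt : ∀ o, pt o ∈ cone I ∧ pt o ≠ 0 := by
    rintro (_ | a)
    · exact ⟨hp, hp0⟩
    · exact hpts a
  let cond : Option A ⊕ (Option A ⊕ B) → (ι → ℂ) → Prop :=
    Sum.elim (fun o y => Fib (col (fun m => (bK m : MvPolynomial ι ℂ))) y ⊓
        Fib (col (fun m => (bK m : MvPolynomial ι ℂ))) (pt o) = ⊥)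
      (Sum.elim (fun o y => N I y ⊓ N I (pt o) = ⊥) (fun b y => N I y ⊓ Us b = ⊥))
  have hA0 : 2 * r * Fintype.card A = Fintype.card A * (r * 2) := by ring
  have hT0 : r * Fintype.card T = Fintype.card T * r := by ring
  have hdm : 4 * r + 1 ≤ dm P := by
    rw [hA0, hT0] at hcard
    omega
  obtain ⟨w, hw, hw0, hcond⟩ := exists_generic hP (by omega) cond (by
    rintro (o | o | b)
    · refine goodC hS hrank bK _ hP hIP ?_
      rw [(bunC hrank bK).rank _ (hpt o).1 (hpt o).2]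
      omega
    · refine goodN hS _ hP hIP ?_
      rw [hS.smooth.rank _ (hpt o).1 (hpt o).2]
      omega
    · refine goodN hS _ hP hIP ?_
      have := hU b
      omega)
  have hVG : ∀ o, (∀ s t : ℂ, s • pt o + t • w ∈ cone I) → VG I (pt o) w := by
    intro o hl
    exact
      { hx := (hpt o).1
        hx0 := (hpt o).2
        hy := hzI w hw
        hy0 := hw0
        line := hl
        disj := by
          have := hcond (Sum.inr (Sum.inl o))
          rw [inf_comm]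
          exact this
        surj := surj_of_disjoint bK (hcond (Sum.inl o)) }
  refine ⟨w, hVG none (hlp w hw), fun a => hVG (some a) (hla w hw a), fun t h1 h2 => ?_,
    fun b => hcond (Sum.inr (Sum.inr b))⟩
  refine plane_of hS (htr t).1 (htr t).2.1 (hFt t) (hFtli t) (htr t).2.2 h1 h2 (fun i => ?_)
  have := hq w hw (Sum.inr (Sum.inr (t, i)))
  rw [← eval_lf]; exact this

end H94.Cubic
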