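import Pool.Agent.H94.Cubic.Rel

/-!
# Products of cones with affine spaces
-/

open MvPolynomial

set_option linter.unusedSectionVars false
set_option linter.unusedSimpArgs false

namespace H94.Cubic

open H89.Hart

variable {ι κ : Type*} [Fintype ι] [DecidableEq ι] [Fintype κ] [DecidableEq κ]

/-- `ℂ[x, y] → (ℂ[x]/P)[y]`. -/
noncomputable def extHom (P : Ideal (MvPolynomial ι ℂ)) (κ : Type*) :
    MvPolynomial (ι ⊕ κ) ℂ →ₐ[ℂ] MvPolynomial κ (MvPolynomial ι ℂ ⧸ P) :=
  aeval (Sum.elim (fun i => C (Ideal.Quotient.mk P (X i))) X)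

/-- The ideal of `V(P) × ℂ^κ`. -/
noncomputable def ext (P : Ideal (MvPolynomial ι ℂ)) (κ : Type*) : Ideal (MvPolynomial (ι ⊕ κ) ℂ) :=
  RingHom.ker (extHom P κ)

theorem ext_isPrime {P : Ideal (MvPolynomial ι ℂ)} (hP : P.IsPrime) : (ext P κ).IsPrime := by
  have : IsDomain (MvPolynomial ι ℂ ⧸ P) := Ideal.Quotient.isDomain P
  exact RingHom.ker_isPrime _

theorem extHom_C (P : Ideal (MvPolynomial ι ℂ)) (c : ℂ) :
    extHom P κ (C c) = C (Ideal.Quotient.mk P (C c)) := by
  rw [← MvPolynomial.algebraMap_eq, AlgHom.commutes]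
  rfl

theorem extHom_rename (P : Ideal (MvPolynomial ι ℂ)) (f : MvPolynomial ι ℂ) :
    extHom P κ (rename Sum.inl f) = C (Ideal.Quotient.mk P f) := by
  induction f using MvPolynomial.induction_on with
  | C c => rw [rename_C, extHom_C]
  | add p q hp hq => rw [map_add, map_add, hp, hq, map_add, map_add]
  | mul_X p i hp =>
    rw [map_mul, map_mul, hp, rename_X, map_mul, map_mul]
    congr 1
    simp [extHom]

theorem rename_mem_ext {P : Ideal (MvPolynomial ι ℂ)} {f : MvPolynomial ι ℂ} (hf : f ∈ P) :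
    rename Sum.inl f ∈ ext P κ := by
  rw [ext, RingHom.mem_ker]
  change extHom P κ (rename Sum.inl f) = 0
  rw [extHom_rename, Ideal.Quotient.eq_zero_iff_mem.2 hf, map_zero]

theorem extHom_surjective (P : Ideal (MvPolynomial ι ℂ)) :
    Function.Surjective (extHom P κ) := by
  intro g
  induction g using MvPolynomial.induction_on with
  | C a =>
    obtain ⟨f, rfl⟩ := Ideal.Quotient.mk_surjective a
    exact ⟨rename Sum.inl f, extHom_rename P f⟩
  | add p q hp hq =>
    obtain ⟨a, ha⟩ := hp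
    obtain ⟨b, hb⟩ := hq
    exact ⟨a + b, by rw [map_add, ha, hb]⟩
  | mul_X p i hp =>
    obtain ⟨a, ha⟩ := hp
    refine ⟨a * X (Sum.inr i), ?_⟩
    rw [map_mul, ha]
    simp [extHom]

theorem mem_cone_ext {P : Ideal (MvPolynomial ι ℂ)} {z : ι ⊕ κ → ℂ} :
    z ∈ cone (ext P κ) ↔ (fun i => z (Sum.inl i)) ∈ cone P := by
  constructor
  · intro h f hf
    have := h _ (rename_mem_ext (κ := κ) hf)
    rwa [eval_rename] at this
  · intro h f hf
    let φ : (MvPolynomial ι ℂ ⧸ P) →+* ℂ :=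
      Ideal.Quotient.lift P (eval fun i => z (Sum.inl i)) (fun a ha => h a ha)
    let ψ : MvPolynomial κ (MvPolynomial ι ℂ ⧸ P) →+* ℂ := eval₂Hom φ (fun k => z (Sum.inr k))
    have h1 : ψ.comp (extHom P κ : MvPolynomial (ι ⊕ κ) ℂ →+* _) = eval z := by
      apply MvPolynomial.ringHom_ext
      · intro c
        rw [RingHom.comp_apply]
        change ψ (extHom P κ (C c)) = _
        rw [extHom_C]
        simp [ψ, φ]
      · rintro (i | k)
        · simp [ψ, φ, extHom]
        · simp [ψ, φ, extHom]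
    have h2 := DFunLike.congr_fun h1 f
    rw [← h2, RingHom.comp_apply]
    have h3 : extHom P κ f = 0 := hf
    change ψ (extHom P κ f) = 0
    rw [h3, map_zero]

/-- homogeneous components of polynomials vanishing on a scaling-stable cone. -/
theorem homog_of_smul {σ : Type*} [Fintype σ] [DecidableEq σ] {Q : Ideal (MvPolynomial σ ℂ)}
    (hQ : Q.IsPrime) (h : ∀ z ∈ cone Q, ∀ c : ℂ, c • z ∈ cone Q) :
    ∀ f ∈ Q, ∀ d, homogeneousComponent d f ∈ Q := by
  intro f hf d
  apply mem_of_cone hQ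
  intro z hz
  let p : Polynomial ℂ := ∑ k ∈ Finset.range (f.totalDegree + 1),
    Polynomial.C (eval z (homogeneousComponent k f)) * Polynomial.X ^ k
  have hp : p = 0 := by
    apply Polynomial.funext
    intro c
    rw [Polynomial.eval_zero, Polynomial.eval_finsetSum]
    have h1 := h z hz c f hf
    rw [← sum_homogeneousComponent f, map_sum] at h1
    rw [← h1]
    refine Finset.sum_congr rfl fun k _ => ?_
    rw [eval_smul_homog (homogeneousComponent_isHomogeneous k f), Polynomial.eval_mul,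
      Polynomial.eval_C, Polynomial.eval_pow, Polynomial.eval_X, mul_comm]
  have h2 : p.coeff d = if d ∈ Finset.range (f.totalDegree + 1) then
      eval z (homogeneousComponent d f) else 0 := by
    simp only [p, Polynomial.finsetSum_coeff, Polynomial.coeff_C_mul, Polynomial.coeff_X_pow,
      mul_ite, mul_one, mul_zero]
    rw [Finset.sum_ite_eq]
  rw [hp, Polynomial.coeff_zero] at h2
  by_cases hd : d ∈ Finset.range (f.totalDegree + 1)
  · rw [if_pos hd] at h2
    exact h2.symm
  · rw [homogeneousComponent_eq_zero d f (by simpa using hd), map_zero]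

theorem smul_mem_of_homog {σ : Type*} [Fintype σ] [DecidableEq σ] {Q : Ideal (MvPolynomial σ ℂ)}
    (h : ∀ f ∈ Q, ∀ d, homogeneousComponent d f ∈ Q) {z : σ → ℂ} (hz : z ∈ cone Q) (c : ℂ) :
    c • z ∈ cone Q := by
  intro f hf
  rw [← sum_homogeneousComponent f, map_sum]
  apply Finset.sum_eq_zero
  intro d _
  rw [eval_smul_homog (homogeneousComponent_isHomogeneous d f), hz _ (h f hf d), mul_zero]

theorem zero_mem_of_homog {σ : Type*} [Fintype σ] [DecidableEq σ] {Q : Ideal (MvPolynomial σ ℂ)}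
    (h : ∀ f ∈ Q, ∀ d, homogeneousComponent d f ∈ Q) {z : σ → ℂ} (hz : z ∈ cone Q) :
    (0 : σ → ℂ) ∈ cone Q := by
  have := smul_mem_of_homog h hz 0
  rwa [zero_smul] at this

theorem exists_mem_cone {σ : Type*} [Fintype σ] [DecidableEq σ] {Q : Ideal (MvPolynomial σ ℂ)}
    (hQ : Q.IsPrime) : ∃ z, z ∈ cone Q := by
  by_contra hcon
  push Not at hcon
  apply hQ.ne_top
  rw [Ideal.eq_top_iff_one]
  exact mem_of_cone hQ fun z hz => absurd hz (hcon z)

theorem ext_homog {P : Ideal (MvPolynomial ι ℂ)} (hP : P.IsPrime)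
    (h : ∀ f ∈ P, ∀ d, homogeneousComponent d f ∈ P) :
    ∀ f ∈ ext P κ, ∀ d, homogeneousComponent d f ∈ ext P κ := by
  apply homog_of_smul (ext_isPrime hP)
  intro z hz c
  rw [mem_cone_ext] at hz ⊢
  exact smul_mem_of_homog h hz c

theorem dim_ext {P : Ideal (MvPolynomial ι ℂ)} (hP : P.IsPrime) :
    ringKrullDim (MvPolynomial (ι ⊕ κ) ℂ ⧸ ext P κ) =
      ringKrullDim (MvPolynomial ι ℂ ⧸ P) + Fintype.card κ := by
  have h1 : ringKrullDim (MvPolynomial (ι ⊕ κ) ℂ ⧸ ext P κ) =
      ringKrullDim (MvPolynomial κ (MvPolynomial ι ℂ ⧸ P)) :=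
    ringKrullDim_eq_of_ringEquiv
      (Ideal.quotientKerAlgEquivOfSurjective (extHom_surjective P)).toRingEquiv
  rw [h1, MvPolynomial.ringKrullDim_of_isNoetherianRing, Nat.card_eq_fintype_card]

end H94.Cubic
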