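import Pool.Agent.H94.Cubic.Core
import Pool.Agent.H18.Sparse.Crit
import Pool.Agent.H89.Hart.Reduction

/-!
# Varieties cut out by quadrics and cubics: the general case
-/

open MvPolynomial

set_option linter.unusedSectionVars false
set_option linter.unusedSimpArgs false
set_option linter.unusedVariables false

namespace H94.Cubic

open H89.Hart H15.Hart

/-- raising the degree to three. -/
theorem raise {κ : Type*} [Fintype κ] [DecidableEq κ] {I : Ideal (MvPolynomial κ ℂ)}
    {f : MvPolynomial κ ℂ} {d : ℕ} (hd : d ≤ 3) (hf : f.IsHomogeneous d) (hfI : f ∈ I)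
    {z : κ → ℂ} (hz : z ∈ cone I) (hz0 : z ≠ 0) : ∃ F ∈ C3 I, dif F z = dif f z := by
  obtain ⟨k, hk⟩ := exists_coord hz0
  have h1 : ((C (z k)⁻¹ * X k : MvPolynomial κ ℂ) ^ (3 - d)).IsHomogeneous (3 - d) := by
    have := (isHomogeneous_C_mul_X ((z k)⁻¹) k : (C (z k)⁻¹ * X k : MvPolynomial κ ℂ).IsHomogeneous
      1).pow (3 - d)
    rwa [one_mul] at this
  refine ⟨(C (z k)⁻¹ * X k) ^ (3 - d) * f, mem_C3.2 ⟨Ideal.mul_mem_left _ _ hfI, ?_⟩, ?_⟩
  · have := h1.mul hf
    have e : 3 - d + d = 3 := by omega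
    rwa [e] at this
  · rw [H89.Hart.dif_mul, hz f hfI, zero_smul, add_zero, map_pow, map_mul, eval_C, eval_X,
      inv_mul_cancel₀ hk, one_pow, one_smul]

theorem main (n r : ℕ) (I : Ideal (MvPolynomial (Fin (n + 1)) ℂ)) (hI : Smooth I r)
    (hdim : ringKrullDim (MvPolynomial (Fin (n + 1)) ℂ ⧸ I) + r = n + 1)
    (hcub : ∀ x ∈ cone I, x ≠ 0 → N I x ≤
      Submodule.span ℂ {v | ∃ f ∈ I, (∃ d ≤ 3, f.IsHomogeneous d) ∧ dif f x = v})
    (hn : 17 * r ≤ n) :
    ∃ F : Fin r → MvPolynomial (Fin (n + 1)) ℂ, ∃ d : Fin r → ℕ,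
      (∀ i, (F i).IsHomogeneous (d i)) ∧ (∀ i, d i = 1 ∨ d i = 2 ∨ d i = 3) ∧
      (∀ i, F i ∈ I) ∧ (∀ x, (∀ i, eval x (F i) = 0) → x ∈ cone I) ∧
      ∀ x ∈ cone I, x ≠ 0 → LinearIndependent ℂ (fun i => dif (F i) x) := by
  classical
  -- a nonzero point
  obtain ⟨x₀, hx₀, hx₀0⟩ : ∃ x ∈ cone I, x ≠ 0 := by
    have h1 : dm I + r = n + 1 := by
      rw [dm_eq hI.prime] at hdim
      exact_mod_cast hdim
    obtain ⟨x, hx, hx0, -⟩ := ne_zero_of_dm (⟨hI.prime, hI.homog⟩ : HP I)
      (fun b : Fin 0 => (0 : MvPolynomial (Fin (n + 1)) ℂ)) (fun b => b.elim0)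
      (by rw [Fintype.card_fin]; omega)
    exact ⟨x, hx, hx0⟩
  let W : Submodule ℂ (Fin (n + 1) → ℂ) := Submodule.span ℂ (cone I)
  obtain ⟨κ, _, _, a, B, hBW, hBa, hBW'⟩ := exists_coords W
  let L : (κ → ℂ) →ₗ[ℂ] (Fin (n + 1) → ℂ) := B
  let M : (Fin (n + 1) → ℂ) →ₗ[ℂ] (κ → ℂ) := LinearMap.funLeft ℂ ℂ a
  have hInv : Inv L M I :=
    { ML := fun z => by funext k; exact hBa z k
      LM := fun x hx => hBW' _ (Submodule.subset_span hx) }
  set r₀ := Module.finrank ℂ (LinearMap.ker (tr L)) with hr₀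
  have hcard : r₀ + Fintype.card κ = n + 1 := by
    have := finrank_ker_tr hInv
    rwa [Fintype.card_fin] at this
  have hr₀r : r₀ ≤ r := by
    rw [← hI.rank x₀ hx₀ hx₀0]
    exact Submodule.finrank_mono (ker_tr_le hInv hI.prime x₀)
  set r' := r - r₀ with hr'
  have hsm : Smooth (pull M I) r' :=
    { prime := pull_isPrime hInv hI.prime
      homog := fun g hg d => by
        change sub M _ ∈ I
        rw [← homogeneousComponent_sub]
        exact hI.homog _ hg d
      rank := fun z hz hz0 => by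
        have h1 := finrank_N_pull hInv hI.prime z
        rw [hI.rank _ ((cone_pull hInv hI.prime).1 hz) (L_ne_zero hInv hI.prime hz0)] at h1
        omega }
  -- the nondegenerate variety
  obtain ⟨F', d', hF'h, hd', hF'I, hF'li⟩ : ∃ F' : Fin r' → MvPolynomial κ ℂ, ∃ d' : Fin r' → ℕ,
      (∀ i, (F' i).IsHomogeneous (d' i)) ∧ (∀ i, d' i = 2 ∨ d' i = 3) ∧
      (∀ i, F' i ∈ pull M I) ∧
      ∀ x ∈ cone (pull M I), x ≠ 0 → LinearIndependent ℂ (fun i => dif (F' i) x) := by
    by_cases hr0 : r' = 0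
    · rw [hr0]
      exact ⟨fun i => i.elim0, fun i => i.elim0, fun i => i.elim0, fun i => i.elim0,
        fun i => i.elim0, fun x _ _ => linearIndependent_empty_type⟩
    · refine core ⟨hsm, by omega, ?_, ?_⟩ (by omega) ?_
      · -- cubics
        intro z hz hz0 v hv
        rw [N_pull hInv hI.prime] at hv
        obtain ⟨u, hu, rfl⟩ := hv
        have hLz := (cone_pull hInv hI.prime).1 hz
        have hLz0 := L_ne_zero hInv hI.prime hz0
        have h1 : ∀ u ∈ Submodule.span ℂ {v | ∃ f ∈ I, (∃ d ≤ 3, f.IsHomogeneous d) ∧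
            dif f (L z) = v}, tr L u ∈ (C3 (pull M I)).map (difLin z) := by
          intro u hu
          induction hu using Submodule.span_induction with
          | mem u hu =>
            obtain ⟨f, hf, ⟨d, hd, hfd⟩, rfl⟩ := hu
            obtain ⟨F, hF, hFz⟩ := raise hd (sub_homog L hfd) ((sub_mem_pull hInv hI.prime).2 hf)
              hz hz0
            refine ⟨F, hF, ?_⟩
            change dif F z = _
            rw [hFz, H15.Hart.dif_sub]
          | zero => rw [map_zero]; exact Submodule.zero_mem _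
          | add u u' _ _ h h' => rw [map_add]; exact Submodule.add_mem _ h h'
          | smul c u _ h => rw [map_smul]; exact Submodule.smul_mem _ _ h
        obtain ⟨F, hF, hFz⟩ := h1 u (hcub _ hLz hLz0 hu)
        exact ⟨F, hF, hFz⟩
      · -- nondegenerate
        intro s hs
        have h1 : ∀ y ∈ W, s ⬝ᵥ (M y) = 0 := by
          intro y hy
          induction hy using Submodule.span_induction with
          | mem y hy =>
            apply hs
            rw [cone_pull hInv hI.prime, hInv.LM y hy]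
            exact hy
          | zero => simp
          | add y z _ _ h h' => rw [map_add, dotProduct_add, h, h', add_zero]
          | smul c y _ h => rw [map_smul, dotProduct_smul, h, smul_zero]
        funext k
        have h2 := h1 _ (hBW (Pi.single k 1))
        have h3 : M (B (Pi.single k 1)) = Pi.single k 1 := hInv.ML _
        rw [h3] at h2
        simpa using h2
      · refine ⟨M x₀, ?_, ?_⟩
        · rw [cone_pull hInv hI.prime, hInv.LM x₀ hx₀]
          exact hx₀
        · intro h0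
          apply hx₀0
          rw [← hInv.LM x₀ hx₀, h0, map_zero]
  let b := Module.finBasis ℂ (LinearMap.ker (tr L))
  let e : Fin r ≃ Fin r₀ ⊕ Fin r' :=
    ((finSumFinEquiv).trans (finCongr (show r₀ + r' = r by omega))).symm
  let Φ : Fin r₀ ⊕ Fin r' → MvPolynomial (Fin (n + 1)) ℂ :=
    Sum.elim (fun j => lin (b j : Fin (n + 1) → ℂ)) (fun j => sub M (F' j))
  have hΦI : ∀ s, Φ s ∈ I := by
    rintro (j | j)
    · exact lin_mem_of_ker hInv hI.prime (b j).2
    · exact hF'I j
  have hΦli : ∀ x ∈ cone I, x ≠ 0 → LinearIndependent ℂ (fun s => dif (Φ s) x) := by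
    intro x hx hx0
    have hMx : M x ∈ cone (pull M I) := by
      rw [cone_pull hInv hI.prime, hInv.LM x hx]; exact hx
    have hMx0 : M x ≠ 0 := by
      intro h0
      apply hx0
      rw [← hInv.LM x hx, h0, map_zero]
    rw [Fintype.linearIndependent_iff]
    intro c hc
    rw [Fintype.sum_sum_type] at hc
    have h1 : ∀ j, dif (Φ (Sum.inl j)) x = (b j : Fin (n + 1) → ℂ) := fun j => dif_lin _ _
    have h2 : ∀ j, dif (Φ (Sum.inr j)) x = tr M (dif (F' j) (M x)) := fun j =>
      H15.Hart.dif_sub M (F' j) x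
    simp only [h1, h2] at hc
    have h3 : ∀ u, tr L (tr M u) = u := by
      intro u
      funext s
      rw [tr_apply, tr_dot, hInv.ML]
      simp
    have h4 := congrArg (tr L) hc
    rw [map_add, map_sum, map_sum, map_zero] at h4
    have h5 : ∀ j : Fin r₀, tr L (c (Sum.inl j) • (b j : Fin (n + 1) → ℂ)) = 0 := fun j => by
      rw [map_smul, LinearMap.mem_ker.1 (b j).2, smul_zero]
    simp only [h5, Finset.sum_const_zero, zero_add, map_smul, h3] at h4
    have h6 := Fintype.linearIndependent_iff.1 (hF'li _ hMx hMx0) _ h4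
    have h7 : ∑ j, c (Sum.inl j) • b j = 0 := by
      apply Subtype.ext
      have h8 : ∑ j, c (Sum.inr j) • tr M (dif (F' j) (M x)) = 0 :=
        Finset.sum_eq_zero fun j _ => by rw [h6 j, zero_smul]
      rw [h8, add_zero] at hc
      simpa using hc
    have h9 := Fintype.linearIndependent_iff.1 b.linearIndependent _ h7
    rintro (j | j)
    · exact h9 j
    · exact h6 j
  have hΦh : ∀ i, (Φ (e i)).IsHomogeneous (Sum.elim (fun _ => 1) d' (e i)) := by
    intro i
    rcases e i with j | j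
    · exact lin_homog _
    · exact sub_homog M (hF'h j)
  have hli : ∀ x ∈ cone I, x ≠ 0 → LinearIndependent ℂ (fun i => dif (Φ (e i)) x) :=
    fun x hx hx0 => (hΦli x hx hx0).comp e e.injective
  refine ⟨fun i => Φ (e i), fun i => Sum.elim (fun _ => 1) d' (e i), hΦh, ?_,
    fun i => hΦI (e i), ?_, hli⟩
  · intro i
    dsimp only
    rcases e i with j | j
    · exact Or.inl rfl
    · exact Or.inr (hd' j)
  · intro x hx
    exact H18.Sparse.zeros_mem hI (fun i => Φ (e i)) (fun i => hΦI (e i))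
      (fun i => ⟨_, hΦh i⟩) hli (by rw [Fintype.card_fin]; omega) hx₀ hx₀0 hx

end H94.Cubic
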