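import Pool.Agent.H94.Cubic.Bun

/-!
# Generic fibres avoid a given small subspace
-/

open MvPolynomial

set_option linter.unusedSectionVars false
set_option linter.unusedSimpArgs false
set_option linter.unusedVariables false

namespace H94.Cubic

open H89.Hart

variable {ι κ β m : Type*} [Fintype ι] [DecidableEq ι] [Fintype κ] [DecidableEq κ]
  [Fintype m] [DecidableEq m]

variable {I : Ideal (MvPolynomial ι ℂ)} {g : β → κ → MvPolynomial ι ℂ} {e a : ℕ}

/-- the frame together with constant vectors. -/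
noncomputable def fr (g : β → κ → MvPolynomial ι ℂ) {c : ℕ} (σ : Fin a → β) (u : Fin c → κ → ℂ) :
    Fin a ⊕ Fin c → κ → MvPolynomial ι ℂ :=
  Sum.elim (fun i => g (σ i)) (fun j k => C (u j k))

theorem ev_fr (σ : Fin a → β) {c : ℕ} (u : Fin c → κ → ℂ) (y : ι → ℂ) :
    (fun i => ev y (fr g σ u i)) = Sum.elim (fun i => ev y (g (σ i))) u := by
  funext i
  rcases i with i | j
  · rfl
  · funext k
    simp [ev_apply, fr]

theorem li_elim {y : ι → ℂ} (σ : Fin a → β) {c : ℕ} {u : Fin c → κ → ℂ}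
    (hσ : LinearIndependent ℂ (fun i => ev y (g (σ i)))) (hu : LinearIndependent ℂ u)
    (hd : Submodule.span ℂ (Set.range fun i => ev y (g (σ i))) ⊓
      Submodule.span ℂ (Set.range u) = ⊥) :
    LinearIndependent ℂ (Sum.elim (fun i => ev y (g (σ i))) u) :=
  hσ.sum_type hu (disjoint_iff.2 hd)

theorem Bun.open' (hB : Bun I g e a) {p : ι → ℂ} (hp : p ∈ cone I) (hp0 : p ≠ 0) {c : ℕ}
    {u : Fin c → κ → ℂ} (hu : LinearIndependent ℂ u)
    (hd : Fib g p ⊓ Submodule.span ℂ (Set.range u) = ⊥) :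
    ∃ h : MvPolynomial ι ℂ, eval p h ≠ 0 ∧ ∀ y ∈ cone I, y ≠ 0 → eval y h ≠ 0 →
      Fib g y ⊓ Submodule.span ℂ (Set.range u) = ⊥ := by
  obtain ⟨σ, hσ⟩ := hB.exists_frame hp hp0
  have hli := li_elim σ hσ hu (by rw [hB.span_eq hp hp0 hσ]; exact hd)
  rw [← ev_fr] at hli
  obtain ⟨l, hl⟩ := exists_dual_gen _ hli
  refine ⟨(pmat (fr g σ u) l).det, ?_, ?_⟩
  · rw [eval_det_pmat, pm_dual hl, Matrix.det_one]
    exact one_ne_zero
  · intro y hy hy0 hdet
    rw [eval_det_pmat] at hdet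
    have h1 := li_of_pm _ l hdet
    rw [ev_fr] at h1
    rw [linearIndependent_sum] at h1
    obtain ⟨h2, h3, h4⟩ := h1
    rw [← hB.span_eq hy hy0 h2]
    exact disjoint_iff.1 h4

/-- open condition for a subspace. -/
theorem Bun.open_of (hB : Bun I g e a) {p : ι → ℂ} (hp : p ∈ cone I) (hp0 : p ≠ 0)
    (U : Submodule ℂ (κ → ℂ)) (hd : Fib g p ⊓ U = ⊥) :
    ∃ h : MvPolynomial ι ℂ, eval p h ≠ 0 ∧ ∀ y ∈ cone I, y ≠ 0 → eval y h ≠ 0 →
      Fib g y ⊓ U = ⊥ := by
  let b := Module.finBasis ℂ U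
  have hb : LinearIndependent ℂ (fun j => (b j : κ → ℂ)) :=
    b.linearIndependent.map' U.subtype U.ker_subtype
  have hs : Submodule.span ℂ (Set.range fun j => (b j : κ → ℂ)) = U := by
    have h1 := congrArg (Submodule.map U.subtype) b.span_eq
    rw [Submodule.map_span, Submodule.map_subtype_top, ← Set.range_comp] at h1
    exact h1
  obtain ⟨h, h1, h2⟩ := hB.open' hp hp0 hb (by rw [hs]; exact hd)
  rw [hs] at h2
  exact ⟨h, h1, h2⟩

theorem Bun.good' (hB : Bun I g e a) {d₀ : ℕ} (hd₀ : 1 ≤ d₀)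
    (hZ : ∀ φ : κ → ℂ, φ ≠ 0 → ∀ P : Ideal (MvPolynomial ι ℂ), HP P → I ≤ P → d₀ ≤ dm P →
      ∃ y ∈ cone P, y ≠ 0 ∧ φ ∉ Fib g y) :
    ∀ (c : ℕ) (u : Fin c → κ → ℂ), LinearIndependent ℂ u →
      ∀ P : Ideal (MvPolynomial ι ℂ), HP P → I ≤ P → d₀ + c ≤ dm P →
      ∃ y ∈ cone P, y ≠ 0 ∧ Fib g y ⊓ Submodule.span ℂ (Set.range u) = ⊥ := by
  intro c
  induction c with
  | zero =>
    intro u hu P hP hIP hdim
    obtain ⟨y, hy, hy0, -⟩ := ne_zero_of_dm hP (fun b : Fin 0 => (0 : MvPolynomial ι ℂ))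
      (fun b => b.elim0) (by rw [Fintype.card_fin]; omega)
    refine ⟨y, hy, hy0, ?_⟩
    rw [Set.range_eq_empty, Submodule.span_empty, inf_bot_eq]
  | succ c ih =>
    intro u hu P hP hIP hdim
    by_contra hcon
    push Not at hcon
    let u' : Fin c → κ → ℂ := fun j => u j.castSucc
    have hu' : LinearIndependent ℂ u' := hu.comp _ (Fin.castSucc_injective c)
    obtain ⟨p, hp, hp0, hd⟩ := ih u' hu' P hP hIP (by omega)
    have hpI := cone_anti hIP hp
    obtain ⟨σ, hσ⟩ := hB.exists_frame hpI hp0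
    have hli := li_elim σ hσ hu' (by rw [hB.span_eq hpI hp0 hσ]; exact hd)
    rw [← ev_fr] at hli
    obtain ⟨l, hl⟩ := exists_dual_gen _ hli
    set φ := u (Fin.last c) with hφ
    let Δ : MvPolynomial ι ℂ := (pmat (fr g σ u') l).det
    let B : Fin c → MvPolynomial ι ℂ := fun j =>
      (pmat (fr g σ u') l).cramer (fun k => C (φ ⬝ᵥ l k)) (Sum.inr j)
    -- homogeneity
    let δ : Fin a ⊕ Fin c → ℕ := Sum.elim (fun _ => e) (fun _ => 0)
    have hfrh : ∀ i k, (fr g σ u' i k).IsHomogeneous (δ i) := by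
      rintro (i | j) k
      · exact hB.homog _ _
      · exact isHomogeneous_C _ _
    have hΔh : Δ.IsHomogeneous (∑ i, δ i) := det_homog_col _ δ (pmat_homog _ l δ hfrh)
    have hBh : ∀ j, (B j).IsHomogeneous (∑ i, δ i) := by
      intro j
      change ((pmat (fr g σ u') l).cramer (fun k => C (φ ⬝ᵥ l k)) (Sum.inr j)).IsHomogeneous _
      rw [Matrix.cramer_apply]
      refine det_homog_col _ δ fun k i => ?_
      by_cases h : i = Sum.inr j
      · subst h
        rw [Matrix.updateCol_self]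
        exact isHomogeneous_C _ _
      · rw [Matrix.updateCol_ne h]
        exact pmat_homog _ l δ hfrh _ _
    have hΔp : eval p Δ = 1 := by
      change eval p (pmat (fr g σ u') l).det = 1
      rw [eval_det_pmat, pm_dual hl, Matrix.det_one]
    -- the component
    obtain ⟨P', hP', hPP', hBP', hpP', hdP'⟩ := comp_rel hP
      (fun j : Fin c => B j - C (eval p (B j)) * Δ)
      (fun j => ⟨∑ i, δ i, (hBh j).sub (by
        have := (isHomogeneous_C ι (eval p (B j))).mul hΔh
        rwa [zero_add] at this)⟩) hp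
      (fun j => by simp [hΔp])
    rw [Fintype.card_fin] at hdP'
    have hIP' := hIP.trans hPP'
    set ψ : κ → ℂ := φ - ∑ j, eval p (B j) • u' j with hψ
    have hψ0 : ψ ≠ 0 := by
      intro h0
      have h1 := (Fintype.linearIndependent_iff.1 hu)
        (fun i => Fin.lastCases (motive := fun _ => ℂ) 1 (fun j => -eval p (B j)) i) (by
          rw [Fin.sum_univ_castSucc]
          simp only [Fin.lastCases_last, Fin.lastCases_castSucc, one_smul, neg_smul,
            Finset.sum_neg_distrib]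
          rw [hψ] at h0
          rw [← h0]
          abel) (Fin.last c)
      simp at h1
    obtain ⟨y, hy, hy0, hyψ⟩ := hZ ψ hψ0 P' hP' hIP' (by omega)
    apply hyψ
    have hΔP' : Δ ∉ P' := fun hm => by
      have := hpP' _ hm
      rw [hΔp] at this
      exact one_ne_zero this
    refine hB.closed_prime hP'.prime hIP' hΔP' ?_ y hy hy0
    intro z hz hz0 hΔz
    have hzI := cone_anti hIP' hz
    have hzP := cone_anti hPP' hz
    change eval z (pmat (fr g σ u') l).det ≠ 0 at hΔz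
    rw [eval_det_pmat] at hΔz
    have h1 := li_of_pm _ l hΔz
    have h1' := h1
    rw [ev_fr] at h1
    rw [linearIndependent_sum] at h1
    obtain ⟨h2, h3, h4⟩ := h1
    -- `φ` is in the span
    have hmem : φ ∈ Submodule.span ℂ (Set.range (fun i => ev z (fr g σ u' i))) := by
      rw [ev_fr, Set.Sum.elim_range, Submodule.span_union]
      have h5 := hcon z hzP hz0
      obtain ⟨v, hv, hv0⟩ := Submodule.exists_mem_ne_zero_of_ne_bot h5
      obtain ⟨hv1, hv2⟩ := Submodule.mem_inf.1 hv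
      rw [← hB.span_eq hzI hz0 h2] at hv1
      obtain ⟨b, hb⟩ := (Submodule.mem_span_range_iff_exists_fun ℂ).1 hv2
      rw [Fin.sum_univ_castSucc] at hb
      by_cases hbl : b (Fin.last c) = 0
      · exfalso
        apply hv0
        rw [hbl, zero_smul, add_zero] at hb
        have h6 : v ∈ Submodule.span ℂ (Set.range u') := by
          rw [← hb]
          exact Submodule.sum_mem _ fun j _ => Submodule.smul_mem _ _
            (Submodule.subset_span ⟨j, rfl⟩)
        exact (Submodule.disjoint_def.1 h4) v hv1 h6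
      · have h6 : φ = (b (Fin.last c))⁻¹ • v +
            ∑ j : Fin c, (-((b (Fin.last c))⁻¹ * b j.castSucc)) • u' j := by
          rw [← hb, smul_add, smul_smul, inv_mul_cancel₀ hbl, one_smul, Finset.smul_sum]
          simp only [neg_smul, Finset.sum_neg_distrib, mul_smul]
          change φ = (∑ j : Fin c, (b (Fin.last c))⁻¹ • b j.castSucc • u j.castSucc + φ) +
            -∑ j : Fin c, (b (Fin.last c))⁻¹ • b j.castSucc • u j.castSucc
          abel
        rw [h6]
        refine Submodule.add_mem_sup (Submodule.smul_mem _ _ hv1) ?_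
        exact Submodule.sum_mem _ fun j _ => Submodule.smul_mem _ _
            (Submodule.subset_span ⟨j, rfl⟩)
    have h5 := cramer_gen _ l hmem
    rw [Fintype.sum_sum_type] at h5
    have h6 : ∀ j : Fin c, (pm (fun i => ev z (fr g σ u' i)) l).cramer (fun k => φ ⬝ᵥ l k)
        (Sum.inr j) = eval p (B j) * (pm (fun i => ev z (fr g σ u' i)) l).det := by
      intro j
      have h7 := hz _ (hBP' j)
      rw [map_sub, map_mul, eval_C, sub_eq_zero] at h7
      change eval z ((pmat (fr g σ u') l).cramer (fun k => C (φ ⬝ᵥ l k)) (Sum.inr j)) =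
        eval p (B j) * eval z (pmat (fr g σ u') l).det at h7
      rw [eval_cramer_pmat, eval_det_pmat] at h7
      exact h7
    have h8 : ∀ j : Fin c, ev z (fr g σ u' (Sum.inr j)) = u' j := fun j =>
      congrFun (ev_fr (g := g) σ u' z) (Sum.inr j)
    have h9 : ∀ i : Fin a, ev z (fr g σ u' (Sum.inl i)) = ev z (g (σ i)) := fun i =>
      congrFun (ev_fr (g := g) σ u' z) (Sum.inl i)
    simp only [h6, h8, h9] at h5
    set D := (pm (fun i => ev z (fr g σ u' i)) l).det with hD
    have h10 : D • ψ ∈ Fib g z := by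
      rw [hψ, smul_sub, h5, Finset.smul_sum]
      simp only [smul_smul, mul_comm D]
      rw [add_sub_cancel_right]
      exact Submodule.sum_mem _ fun i _ => Submodule.smul_mem _ _
            (Submodule.subset_span ⟨σ i, rfl⟩)
    have h11 := (Fib g z).smul_mem D⁻¹ h10
    rwa [smul_smul, inv_mul_cancel₀ hΔz, one_smul] at h11

/-- generic fibres avoid `U`. -/
theorem Bun.good (hB : Bun I g e a) {d₀ : ℕ} (hd₀ : 1 ≤ d₀)
    (hZ : ∀ φ : κ → ℂ, φ ≠ 0 → ∀ P : Ideal (MvPolynomial ι ℂ), HP P → I ≤ P → d₀ ≤ dm P →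
      ∃ y ∈ cone P, y ≠ 0 ∧ φ ∉ Fib g y) (U : Submodule ℂ (κ → ℂ))
    {P : Ideal (MvPolynomial ι ℂ)} (hP : HP P) (hIP : I ≤ P)
    (hdim : d₀ + Module.finrank ℂ U ≤ dm P) :
    ∃ h : MvPolynomial ι ℂ, h ∉ P ∧ ∀ y ∈ cone P, y ≠ 0 → eval y h ≠ 0 → Fib g y ⊓ U = ⊥ := by
  let b := Module.finBasis ℂ U
  have hb : LinearIndependent ℂ (fun j => (b j : κ → ℂ)) :=
    b.linearIndependent.map' U.subtype U.ker_subtype
  have hs : Submodule.span ℂ (Set.range fun j => (b j : κ → ℂ)) = U := by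
    have h1 := congrArg (Submodule.map U.subtype) b.span_eq
    rw [Submodule.map_span, Submodule.map_subtype_top, ← Set.range_comp] at h1
    exact h1
  obtain ⟨p, hp, hp0, hd⟩ := hB.good' hd₀ hZ _ _ hb P hP hIP hdim
  rw [hs] at hd
  obtain ⟨h, h1, h2⟩ := hB.open_of (cone_anti hIP hp) hp0 U hd
  exact ⟨h, fun hm => h1 (hp _ hm), fun y hy => h2 y (cone_anti hIP hy)⟩

end H94.Cubic
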