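import Pool.Agent.H94.Cubic.Cub

/-!
# Very good pairs and transport along lines
-/

open MvPolynomial Filter Topology

set_option linter.unusedSectionVars false
set_option linter.unusedSimpArgs false
set_option linter.unusedVariables false

namespace H94.Cubic

open H89.Hart

variable {ι : Type*} [Fintype ι] [DecidableEq ι] {I : Ideal (MvPolynomial ι ℂ)} {r : ℕ}

/-- very good pairs -/
structure VG (I : Ideal (MvPolynomial ι ℂ)) (x y : ι → ℂ) : Prop where
  hx : x ∈ cone I
  hx0 : x ≠ 0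
  hy : y ∈ cone I
  hy0 : y ≠ 0
  line : ∀ s t : ℂ, s • x + t • y ∈ cone I
  disj : N I x ⊓ N I y = ⊥
  surj : ∀ u ∈ S I x, ∀ v ∈ S I y, ∃ F ∈ K I, dif F x = u ∧ dif F y = v

theorem VG.symm {x y : ι → ℂ} (h : VG I x y) : VG I y x where
  hx := h.hy
  hx0 := h.hy0
  hy := h.hx
  hy0 := h.hx0
  line s t := by rw [add_comm]; exact h.line t s
  disj := by rw [inf_comm]; exact h.disj
  surj u hu v hv := by
    obtain ⟨F, h1, h2, h3⟩ := h.surj v hv u hu
    exact ⟨F, h1, h3, h2⟩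

/-- `s b + t c` is a section of `S` along the line through `x` and `y`. -/
def Rel (I : Ideal (MvPolynomial ι ℂ)) (x b y c : ι → ℂ) : Prop :=
  ∀ s t : ℂ, s • x + t • y ≠ 0 → s • b + t • c ∈ S I (s • x + t • y)

theorem Rel.symm {x b y c : ι → ℂ} (h : Rel I x b y c) : Rel I y c x b := by
  intro s t h0
  rw [add_comm (s • y)] at h0 ⊢
  rw [add_comm (s • c)]
  exact h t s h0

theorem Rel.add {x b y c b' c' : ι → ℂ} (h : Rel I x b y c) (h' : Rel I x b' y c') :
    Rel I x (b + b') y (c + c') := by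
  intro s t h0
  have := Submodule.add_mem _ (h s t h0) (h' s t h0)
  have e : s • (b + b') + t • (c + c') = (s • b + t • c) + (s • b' + t • c') := by
    rw [smul_add, smul_add]; abel
  rwa [e]

theorem Rel.smul {x b y c : ι → ℂ} (k : ℂ) (h : Rel I x b y c) :
    Rel I x (k • b) y (k • c) := by
  intro s t h0
  have := Submodule.smul_mem _ k (h s t h0)
  rwa [smul_add, smul_comm k s, smul_comm k t] at this

theorem Rel.sub {x b y c b' c' : ι → ℂ} (h : Rel I x b y c) (h' : Rel I x b' y c') :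
    Rel I x (b - b') y (c - c') := by
  have := h.add (h'.smul (-1))
  simpa [sub_eq_add_neg] using this

theorem Rel.zero (x y : ι → ℂ) : Rel I x 0 y 0 := by
  intro s t h0
  rw [smul_zero, smul_zero, add_zero]
  exact Submodule.zero_mem _

theorem Rel.sum {α : Type*} (A : Finset α) {x y : ι → ℂ} {b c : α → ι → ℂ}
    (h : ∀ i ∈ A, Rel I x (b i) y (c i)) : Rel I x (∑ i ∈ A, b i) y (∑ i ∈ A, c i) := by
  classical
  induction A using Finset.induction_on with
  | empty => simpa using Rel.zero x y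
  | insert i A hi ih =>
    rw [Finset.sum_insert hi, Finset.sum_insert hi]
    exact (h i (Finset.mem_insert_self i A)).add
      (ih fun j hj => h j (Finset.mem_insert_of_mem hj))

theorem Rel.left_mem {x b y c : ι → ℂ} (hx0 : x ≠ 0) (h : Rel I x b y c) : b ∈ S I x := by
  have := h 1 0 (by simpa using hx0)
  simpa using this

theorem Rel.right_mem {x b y c : ι → ℂ} (hy0 : y ≠ 0) (h : Rel I x b y c) : c ∈ S I y :=
  h.symm.left_mem hy0

theorem mem_S_closed (hS : Setup I r) {w φ : ℂ → ι → ℂ} (hw : Continuous w)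
    (hφ : Continuous φ) (hp : w 0 ∈ cone I) (hp0 : w 0 ≠ 0)
    (h : ∀ t, t ≠ 0 → w t ≠ 0 → w t ∈ cone I ∧ φ t ∈ S I (w t)) : φ 0 ∈ S I (w 0) := by
  obtain ⟨a, -, ha⟩ := exists_rank hS
  have h1 := (bunS ha).closed_curve hw hφ hp hp0 (fun t ht ht0 => by
    rw [Fib_sub]; exact h t ht ht0)
  rw [Fib_sub] at h1
  exact h1

theorem mem_N_closed (hS : Setup I r) {w φ : ℂ → ι → ℂ} (hw : Continuous w)
    (hφ : Continuous φ) (hp : w 0 ∈ cone I) (hp0 : w 0 ≠ 0)
    (h : ∀ t, t ≠ 0 → w t ≠ 0 → w t ∈ cone I ∧ φ t ∈ N I (w t)) : φ 0 ∈ N I (w 0) := by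
  have h1 := (bunN hS).closed_curve hw hφ hp hp0 (fun t ht ht0 => by
    obtain ⟨h2, h3⟩ := h t ht ht0
    rw [Fib_N hS h2 ht0]; exact ⟨h2, h3⟩)
  rw [Fib_N hS hp hp0] at h1
  exact h1

theorem S_smul (c : ℂ) {x v : ι → ℂ} (hc : c ≠ 0) (h : v ∈ S I x) : v ∈ S I (c • x) := by
  obtain ⟨F, hF, rfl⟩ := mem_S.1 h
  have h1 := dif_line (mem_C3.1 (K_le I hF)).2 x 0 c 0
  rw [zero_smul, add_zero] at h1
  refine mem_S.2 ⟨(c ^ 2)⁻¹ • F, Submodule.smul_mem _ _ hF, ?_⟩
  rw [dif_smul, h1]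
  simp only [ne_eq, OfNat.ofNat_ne_zero, not_false_eq_true, zero_pow, zero_smul, mul_zero,
    add_zero, smul_smul]
  rw [inv_mul_cancel₀ (pow_ne_zero 2 hc), one_smul]

/-- existence of the transport. -/
theorem rel_of_vanish (hS : Setup I r) {x y : ι → ℂ} (hx : x ∈ cone I) (hx0 : x ≠ 0)
    (hy : y ∈ cone I) (hy0 : y ≠ 0) (hline : ∀ s t : ℂ, s • x + t • y ∈ cone I)
    {F : MvPolynomial ι ℂ} (hF : F ∈ K I) (h0 : dif F y = 0) :
    Rel I x (dif F x) y (H F x y) := by
  have hF3 := (mem_C3.1 (K_le I hF)).2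
  have key : ∀ s t : ℂ, s ≠ 0 → s • dif F x + t • H F x y ∈ S I (s • x + t • y) := by
    intro s t hs
    have h1 := dif_line hF3 x y s t
    rw [h0, smul_zero, add_zero] at h1
    refine mem_S.2 ⟨s⁻¹ • F, Submodule.smul_mem _ _ hF, ?_⟩
    rw [dif_smul, h1, smul_add, smul_smul, smul_smul]
    congr 2
    · field_simp
    · field_simp
  intro s t hst
  by_cases hs : s = 0
  · subst hs
    rw [zero_smul, zero_smul, zero_add, zero_add] at *
    have ht : t ≠ 0 := by
      rintro rfl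
      simp at hst
    refine S_smul t ht (Submodule.smul_mem _ _ ?_)
    have h2 := mem_S_closed hS (w := fun ε => ε • x + (1 : ℂ) • y)
      (φ := fun ε => ε • dif F x + (1 : ℂ) • H F x y) (by fun_prop) (by fun_prop)
      (by simpa using hy) (by simpa using hy0) (fun ε hε _ => ⟨hline ε 1, key ε 1 hε⟩)
    simpa using h2
  · exact key s t hs

theorem VG.exists_rel (hS : Setup I r) {x y : ι → ℂ} (h : VG I x y) {b : ι → ℂ}
    (hb : b ∈ S I x) : ∃ c, Rel I x b y c := by
  obtain ⟨F, hF, h1, h2⟩ := h.surj b hb 0 (Submodule.zero_mem _)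
  refine ⟨H F x y, ?_⟩
  rw [← h1]
  exact rel_of_vanish hS h.hx h.hx0 h.hy h.hy0 h.line hF h2

theorem VG.unique (hS : Setup I r) {x y : ι → ℂ} (h : VG I x y) {b c c' : ι → ℂ}
    (h1 : Rel I x b y c) (h2 : Rel I x b y c') : c = c' := by
  have h3 : Rel I x 0 y (c - c') := by
    have := h1.sub h2
    rwa [sub_self] at this
  have hy : c - c' ∈ N I y := S_le_N I y (h3.right_mem h.hy0)
  have hx : c - c' ∈ N I x := by
    apply S_le_N
    have h4 := mem_S_closed hS (w := fun t => x + t • y) (φ := fun _ => c - c') (by fun_prop)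
      continuous_const (by simpa using h.hx) (by simpa using h.hx0) (fun t ht ht0 => by
        have h5 := h.line 1 t
        rw [one_smul] at h5
        refine ⟨h5, ?_⟩
        have h6 := h3 1 t (by simpa using ht0)
        rw [one_smul, smul_zero, zero_add] at h6
        have h7 := Submodule.smul_mem _ t⁻¹ h6
        rwa [smul_smul, inv_mul_cancel₀ ht, one_smul] at h7)
    simpa using h4
  have : c - c' ∈ N I x ⊓ N I y := ⟨hx, hy⟩
  rw [h.disj] at this
  exact sub_eq_zero.1 ((Submodule.mem_bot ℂ).1 this)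

theorem VG.unique_left (hS : Setup I r) {x y : ι → ℂ} (h : VG I x y) {b b' c : ι → ℂ}
    (h1 : Rel I x b y c) (h2 : Rel I x b' y c) : b = b' :=
  h.symm.unique hS h1.symm h2.symm

/-- first order information on the transport. -/
theorem sub_H_mem (hS : Setup I r) {x z b d : ι → ℂ} (hx : x ∈ cone I) (hx0 : x ≠ 0)
    (hline : ∀ s t : ℂ, s • x + t • z ∈ cone I) (h : Rel I x b z d) {G : MvPolynomial ι ℂ}
    (hG : G ∈ C3 I) (hb : dif G x = b) : d - H G x z ∈ N I x := by
  have h1 := mem_N_closed hS (w := fun t => x + t • z)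
    (φ := fun t => d - H G x z - t • dif G z) (by fun_prop) (by fun_prop)
    (by simpa using hx) (by simpa using hx0) (fun t ht ht0 => by
      have h5 := hline 1 t
      rw [one_smul] at h5
      refine ⟨h5, ?_⟩
      have h6 := S_le_N I _ (h 1 t (by simpa using ht0))
      have h7 : dif G ((1 : ℂ) • x + t • z) ∈ N I ((1 : ℂ) • x + t • z) :=
        mem_N.2 ⟨G, (mem_C3.1 hG).1, rfl⟩
      rw [dif_line (mem_C3.1 hG).2] at h7
      have h8 := Submodule.smul_mem _ t⁻¹ (Submodule.sub_mem _ h6 h7)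
      rw [one_smul] at h8
      convert h8 using 1
      rw [hb]
      have ht' : t⁻¹ * t = 1 := inv_mul_cancel₀ ht
      funext k
      simp only [Pi.sub_apply, Pi.add_apply, Pi.smul_apply, smul_eq_mul]
      field_simp
      ring)
  simpa using h1

theorem H_mem (hS : Setup I r) {x z : ι → ℂ} (hx : x ∈ cone I) (hx0 : x ≠ 0)
    (hline : ∀ s t : ℂ, s • x + t • z ∈ cone I) {G : MvPolynomial ι ℂ}
    (hG : G ∈ C3 I) (hb : dif G x = 0) : H G x z ∈ N I x := by
  have := sub_H_mem hS hx hx0 hline (Rel.zero x z) hG hb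
  rw [zero_sub] at this
  exact (Submodule.neg_mem_iff _).1 this

theorem VG.H_eq (hS : Setup I r) {x y : ι → ℂ} (h : VG I x y) {c : ι → ℂ}
    {F : MvPolynomial ι ℂ} (hF : F ∈ K I) (h0 : dif F y = 0) (h1 : Rel I x (dif F x) y c) :
    H F x y = c :=
  h.unique hS (rel_of_vanish hS h.hx h.hx0 h.hy h.hy0 h.line hF h0) h1

theorem VG.add_ne_zero (hS : Setup I r) {x y : ι → ℂ} (h : VG I x y) : x + y ≠ 0 := by
  intro h0
  have h1 : y = (-1 : ℂ) • x := by
    rw [neg_one_smul]; exact (neg_eq_of_add_eq_zero_right h0).symm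
  have h2 : N I x ≤ N I y := by
    intro v hv
    rw [h1]
    exact N_smul hS.smooth (by norm_num) hv
  have h3 : N I x = ⊥ := by
    rw [← h.disj]
    exact (inf_eq_left.2 h2).symm
  have h4 := hS.smooth.rank x h.hx h.hx0
  rw [h3, finrank_bot] at h4
  have := hS.pos
  omega

/-- the triangle law. -/
theorem tri (hS : Setup I r) {x y z b c d d' : ι → ℂ} (hxy : VG I x y) (hz0 : z ≠ 0)
    (plane : ∀ s t u : ℂ, s • x + t • y + u • z ∈ cone I)
    (hN : N I z ⊓ (N I x ⊔ N I y ⊔ N I (x + y)) = ⊥)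
    (r1 : Rel I x b y c) (r2 : Rel I x b z d) (r3 : Rel I y c z d') : d = d' := by
  have hb := r1.left_mem hxy.hx0
  have hc := r1.right_mem hxy.hy0
  obtain ⟨F₀, hF₀, h1, h2⟩ := hxy.surj b hb 0 (Submodule.zero_mem _)
  obtain ⟨F₁, hF₁, h3, h4⟩ := hxy.surj 0 (Submodule.zero_mem _) c hc
  have e0 : H F₀ x y = c := hxy.H_eq hS hF₀ h2 (by rw [h1]; exact r1)
  have e1 : H F₁ y x = b := hxy.symm.H_eq hS hF₁ h3 (by rw [h4]; exact r1.symm)
  have hxz : ∀ s t : ℂ, s • x + t • z ∈ cone I := fun s t => by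
    have := plane s 0 t
    rwa [zero_smul, add_zero] at this
  have hyz : ∀ s t : ℂ, s • y + t • z ∈ cone I := fun s t => by
    have := plane 0 s t
    rwa [zero_smul, zero_add] at this
  have hwz : ∀ s t : ℂ, s • (x + y) + t • z ∈ cone I := fun s t => by
    have := plane s s t
    rwa [smul_add]
  have hw : x + y ∈ cone I := by
    have := hxy.line 1 1
    rwa [one_smul, one_smul] at this
  have hw0 := hxy.add_ne_zero hS
  -- `F₀ - F₁` is singular at `x + y`
  have hF₀3 := (mem_C3.1 (K_le I hF₀)).2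
  have hF₁3 := (mem_C3.1 (K_le I hF₁)).2
  have hsing : dif (F₀ - F₁) (x + y) = 0 := by
    have a0 := dif_line hF₀3 x y 1 1
    have a1 := dif_line hF₁3 x y 1 1
    rw [h1, h2, e0] at a0
    rw [h3, h4, H_comm, e1] at a1
    simp only [one_pow, one_smul, mul_one, smul_zero, add_zero, zero_add] at a0 a1
    rw [dif_sub, a0, a1, sub_self]
  have m1 := H_mem hS hw hw0 hwz (Submodule.sub_mem _ (K_le I hF₀) (K_le I hF₁)) hsing
  have m2 := H_mem hS hxy.hy hxy.hy0 hyz (K_le I hF₀) h2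
  have m3 := H_mem hS hxy.hx hxy.hx0 hxz (K_le I hF₁) h3
  have m4 := sub_H_mem hS hxy.hx hxy.hx0 hxz r2 (K_le I hF₀) h1
  have m5 := sub_H_mem hS hxy.hy hxy.hy0 hyz r3 (K_le I hF₁) h4
  have hHsub : H (F₀ - F₁) (x + y) z = H F₀ x z + H F₀ y z - H F₁ x z - H F₁ y z := by
    funext k
    simp only [H, c3, map_sub, Pi.add_apply, Pi.sub_apply, mul_sub, add_mul,
      Finset.sum_sub_distrib, Finset.sum_add_distrib]
    ring
  set U := N I x ⊔ N I y ⊔ N I (x + y) with hU
  have ux : N I x ≤ U := le_sup_left.trans le_sup_left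
  have uy : N I y ≤ U := le_sup_right.trans le_sup_left
  have uw : N I (x + y) ≤ U := le_sup_right
  have hd : d - d' ∈ U := by
    have e : d - d' = (d - H F₀ x z) - (d' - H F₁ y z) + H (F₀ - F₁) (x + y) z - H F₀ y z +
        H F₁ x z := by
      rw [hHsub]; abel
    rw [e]
    refine U.add_mem (U.sub_mem (U.add_mem (U.sub_mem (ux m4) (uy m5)) (uw m1)) (uy m2)) (ux m3)
  have hdz : d - d' ∈ N I z :=
    Submodule.sub_mem _ (S_le_N I z (r2.right_mem hz0)) (S_le_N I z (r3.right_mem hz0))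
  have : d - d' ∈ N I z ⊓ U := ⟨hdz, hd⟩
  rw [hN] at this
  exact sub_eq_zero.1 ((Submodule.mem_bot ℂ).1 this)

end H94.Cubic
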