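import Pool.Agent.H94.Cubic.Final

/-!
# Hartshorne's conjecture for varieties cut out by quadrics and cubics, with a linear bound

A nonsingular irreducible closed `X ⊂ P^n` of codimension `r`, `n ≥ 17 r`, which is cut out by its
hypersurfaces of degree at most three (near each of its points; the number of these hypersurfaces
is arbitrary) is a transversal intersection of `r` hypersurfaces.
-/

open MvPolynomial

namespace Pool.Agent.Results.MP_9a3fdb_ag.QuadricsAndCubics

/-- The affine cone over the projective zero set of `I`: the common zeros of all `f ∈ I`. -/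
def Cone {n : ℕ} (I : Ideal (MvPolynomial (Fin (n + 1)) ℂ)) : Set (Fin (n + 1) → ℂ) :=
  {x | ∀ f ∈ I, eval x f = 0}

/-- The differential of `f` at `x`, as the vector of its partial derivatives. -/
noncomputable def grad {n : ℕ} (f : MvPolynomial (Fin (n + 1)) ℂ) (x : Fin (n + 1) → ℂ) :
    Fin (n + 1) → ℂ := fun i => eval x (pderiv i f)

/-- `I` is the homogeneous ideal of a nonsingular irreducible closed subvariety of `P^n` of
codimension `r`: a homogeneous prime ideal with `dim ℂ[x₀,…,xₙ]/I = n + 1 - r` whose elements have,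
at every nonzero point of the cone, differentials spanning an `r`-dimensional space. -/
structure IsNonsingularVariety (n r : ℕ) (I : Ideal (MvPolynomial (Fin (n + 1)) ℂ)) : Prop where
  prime : I.IsPrime
  homogeneous : ∀ f ∈ I, ∀ d, homogeneousComponent d f ∈ I
  dim : ringKrullDim (MvPolynomial (Fin (n + 1)) ℂ ⧸ I) + r = n + 1
  nonsingular : ∀ x ∈ Cone I, x ≠ 0 →
    Module.finrank ℂ (Submodule.span ℂ {v | ∃ f ∈ I, grad f x = v}) = r

theorem result (n r : ℕ) (hn : 17 * r ≤ n) (I : Ideal (MvPolynomial (Fin (n + 1)) ℂ))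
    (hX : IsNonsingularVariety n r I)
    -- at every point of `X` the forms of degree at most three in `I` have `r` independent
    -- differentials
    (hcut : ∀ x ∈ Cone I, x ≠ 0 → Module.finrank ℂ
      (Submodule.span ℂ {v | ∃ f ∈ I, (∃ d ≤ 3, f.IsHomogeneous d) ∧ grad f x = v}) = r) :
    ∃ F : Fin r → MvPolynomial (Fin (n + 1)) ℂ, ∃ d : Fin r → ℕ,
      (∀ i, (F i).IsHomogeneous (d i)) ∧ (∀ i, d i = 1 ∨ d i = 2 ∨ d i = 3) ∧
      Cone I = {x | ∀ i, eval x (F i) = 0} ∧
      ∀ x ∈ Cone I, x ≠ 0 → LinearIndependent ℂ (fun i => grad (F i) x) := by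
  have hN : ∀ x, Submodule.span ℂ {v | ∃ f ∈ I, grad f x = v} = H89.Hart.N I x := by
    intro x
    apply le_antisymm
    · rw [Submodule.span_le]
      rintro v ⟨f, hf, rfl⟩
      exact H89.Hart.mem_N.2 ⟨f, hf, rfl⟩
    · intro v hv
      obtain ⟨f, hf, rfl⟩ := H89.Hart.mem_N.1 hv
      exact Submodule.subset_span ⟨f, hf, rfl⟩
  have hS : H89.Hart.Smooth I r :=
    { prime := hX.prime
      homog := hX.homogeneous
      rank := fun x hx hx0 => by rw [← hN]; exact hX.nonsingular x hx hx0 }
  obtain ⟨F, d, h1, h2, h3, h4, h5⟩ := H94.Cubic.main n r I hS hX.dim (by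
    intro x hx hx0
    have h1 : Submodule.span ℂ {v | ∃ f ∈ I, (∃ d ≤ 3, f.IsHomogeneous d) ∧ grad f x = v} ≤
        H89.Hart.N I x := by
      rw [Submodule.span_le]
      rintro v ⟨f, hf, -, rfl⟩
      exact H89.Hart.mem_N.2 ⟨f, hf, rfl⟩
    have h2 := Submodule.eq_of_le_of_finrank_eq h1 (by
      rw [hcut x hx hx0, ← hN, hX.nonsingular x hx hx0])
    exact h2.ge) hn
  refine ⟨F, d, h1, h2, ?_, h5⟩
  ext x
  exact ⟨fun hx i => hx _ (h3 i), fun hx => h4 x hx⟩

end Pool.Agent.Results.MP_9a3fdb_ag.QuadricsAndCubics
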