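import Pool.Agent.H89.Hart.Zak

/-!
# Relative components, products with affine spaces
-/

open MvPolynomial

set_option linter.unusedSectionVars false
set_option linter.unusedSimpArgs false

namespace H94.Cubic

open H89.Hart

variable {σ : Type*} [Fintype σ] [DecidableEq σ]

attribute [local instance] MvPolynomial.gradedAlgebra in
/-- components of the intersection of `V(P₀)` with hypersurfaces. -/
theorem exists_component_rel (P₀ : Ideal (MvPolynomial σ ℂ)) (hP₀ : P₀.IsPrime)
    (hP₀h : ∀ f ∈ P₀, ∀ d, homogeneousComponent d f ∈ P₀)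
    {α : Type*} [Fintype α] (g : α → MvPolynomial σ ℂ)
    (hg : ∀ a, ∃ d, (g a).IsHomogeneous d) (q : σ → ℂ) (hq0 : q ∈ cone P₀)
    (hq : ∀ a, eval q (g a) = 0) :
    ∃ P : Ideal (MvPolynomial σ ℂ), P.IsPrime ∧ (∀ f ∈ P, ∀ d, homogeneousComponent d f ∈ P) ∧
      P₀ ≤ P ∧ (∀ a, g a ∈ P) ∧ q ∈ cone P ∧
      ringKrullDim (MvPolynomial σ ℂ ⧸ P₀) ≤
        ringKrullDim (MvPolynomial σ ℂ ⧸ P) + Fintype.card α := by
  classical
  have hdom : IsDomain (MvPolynomial σ ℂ ⧸ P₀) := Ideal.Quotient.isDomain P₀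
  set A := MvPolynomial σ ℂ ⧸ P₀ with hA
  set J : Ideal A := Ideal.span (Set.range fun a => Ideal.Quotient.mk P₀ (g a)) with hJ
  set M₀ : Ideal (MvPolynomial σ ℂ) := vanishingIdeal ℂ {q} with hM₀
  have hPM₀ : P₀ ≤ M₀ := le_vanishing hq0
  have hM₀max : M₀.IsMaximal := by rw [hM₀]; infer_instance
  set M : Ideal A := M₀.map (Ideal.Quotient.mk P₀) with hM
  have hMmax : M.IsMaximal := by
    refine .map_of_surjective_of_ker_le Ideal.Quotient.mk_surjective ?_
    rw [Ideal.mk_ker]
    exact hPM₀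
  have hgM : (Set.range fun a => Ideal.Quotient.mk P₀ (g a)) ⊆ (M : Set A) := by
    rintro _ ⟨a, rfl⟩
    refine Ideal.mem_map_of_mem _ ?_
    rw [hM₀, mem_vanishingIdeal_singleton_iff]
    simpa using hq a
  have hJM : J ≤ M := Ideal.span_le.mpr hgM
  have h1 := Ideal.height_le_height_add_encard_of_subset
    (Set.range fun a => Ideal.Quotient.mk P₀ (g a)) (p := M) hgM
  rw [← hJ] at h1
  have hM' : (M.map (Ideal.Quotient.mk J)).IsPrime := Ideal.isPrime_map_quotientMk_of_isPrime hJM
  obtain ⟨l, hl1, hl2⟩ := Ideal.exists_ltSeries_length_eq_height (M.map (Ideal.Quotient.mk J))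
  have hMh := height_eq_dim (K := ℂ) M
  rw [← hl2] at h1
  have hcard : (Set.range fun a => Ideal.Quotient.mk P₀ (g a)).encard ≤ Fintype.card α := by
    rw [← Set.image_univ]
    refine (Set.encard_image_le _ Set.univ).trans ?_
    simp [Set.encard_univ]
  let ψ : MvPolynomial σ ℂ →+* A ⧸ J := (Ideal.Quotient.mk J).comp (Ideal.Quotient.mk P₀)
  have hψ : Function.Surjective ψ :=
    Ideal.Quotient.mk_surjective.comp Ideal.Quotient.mk_surjective
  let J₁ : Ideal (MvPolynomial σ ℂ) := P₀ ⊔ Ideal.span (Set.range g)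
  have hJ₁ψ : J₁ ≤ RingHom.ker ψ := by
    refine sup_le ?_ ?_
    · intro f hf
      rw [RingHom.mem_ker]
      change Ideal.Quotient.mk J (Ideal.Quotient.mk P₀ f) = 0
      rw [Ideal.Quotient.eq_zero_iff_mem.mpr hf, map_zero]
    · rw [Ideal.span_le]
      rintro _ ⟨a, rfl⟩
      change g a ∈ RingHom.ker ψ
      rw [RingHom.mem_ker]
      change Ideal.Quotient.mk J (Ideal.Quotient.mk P₀ (g a)) = 0
      rw [Ideal.Quotient.eq_zero_iff_mem]
      exact Ideal.subset_span ⟨a, rfl⟩
  -- the comap of the head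
  let Q0 : Ideal (MvPolynomial σ ℂ) := l.head.asIdeal.comap ψ
  have hJQ0 : J₁ ≤ Q0 := by
    intro f hf
    change ψ f ∈ l.head.asIdeal
    rw [RingHom.mem_ker.1 (hJ₁ψ hf)]
    exact zero_mem _
  have hQ0M : Q0 ≤ M₀ := by
    have h2 : l.head.asIdeal ≤ M.map (Ideal.Quotient.mk J) := by
      have := l.head_le_last
      rw [hl1] at this
      exact this
    intro f hf
    have h3 : Ideal.Quotient.mk J (Ideal.Quotient.mk P₀ f) ∈ M.map (Ideal.Quotient.mk J) := h2 hf
    rw [Ideal.mem_quotient_iff_mem hJM] at h3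
    rwa [hM, Ideal.mem_quotient_iff_mem hPM₀] at h3
  obtain ⟨P, hPmin, hPQ⟩ := Ideal.exists_minimalPrimes_le (I := J₁) (J := Q0) hJQ0
  have hPprime : P.IsPrime := hPmin.1.1
  have hJP : J₁ ≤ P := hPmin.1.2
  refine ⟨P, hPprime, ?_, le_sup_left.trans hJP, ?_, ?_, ?_⟩
  · have hP₀hh : P₀.IsHomogeneous (homogeneousSubmodule σ ℂ) := by
      intro i f hf
      have h5 : ((DirectSum.decompose (homogeneousSubmodule σ ℂ) f) i : MvPolynomial σ ℂ) =
          homogeneousComponent i f := MvPolynomial.decomposition.decompose'_apply f i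
      rw [h5]
      exact hP₀h f hf i
    have hJh : J₁.IsHomogeneous (homogeneousSubmodule σ ℂ) := by
      refine hP₀hh.sup (Ideal.homogeneous_span _ _ ?_)
      rintro _ ⟨a, rfl⟩
      obtain ⟨d, hd⟩ := hg a
      exact ⟨d, hd⟩
    have hcore : (P.homogeneousCore (homogeneousSubmodule σ ℂ)).toIdeal.IsPrime :=
      Ideal.IsPrime.homogeneousCore (𝒜 := homogeneousSubmodule σ ℂ) hPprime
    have hle : (P.homogeneousCore (homogeneousSubmodule σ ℂ)).toIdeal ≤ P :=
      Ideal.toIdeal_homogeneousCore_le _ _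
    have hJcore : J₁ ≤ (P.homogeneousCore (homogeneousSubmodule σ ℂ)).toIdeal := by
      have h5 := hJh.toIdeal_homogeneousCore_eq_self
      rw [← h5]
      exact Ideal.homogeneousCore_mono _ hJP
    have heq : P ≤ (P.homogeneousCore (homogeneousSubmodule σ ℂ)).toIdeal :=
      hPmin.2 ⟨hcore, hJcore⟩ hle
    have hPh : P.IsHomogeneous (homogeneousSubmodule σ ℂ) := by
      rw [Ideal.IsHomogeneous.iff_eq]
      exact le_antisymm hle heq
    intro f hf d
    exact homogeneousComponent_mem_of_mem hPh hf d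
  · intro a
    exact hJP (Ideal.mem_sup_right (Ideal.subset_span ⟨a, rfl⟩))
  · intro f hf
    have : f ∈ M₀ := hQ0M (hPQ hf)
    rw [hM₀, mem_vanishingIdeal_singleton_iff] at this
    simpa using this
  · have hdim : (l.length : WithBot ℕ∞) ≤ ringKrullDim (MvPolynomial σ ℂ ⧸ P) := by
      rw [ringKrullDim_quotient]
      let l' : LTSeries (PrimeSpectrum.zeroLocus (R := MvPolynomial σ ℂ) P) :=
        { length := l.length
          toFun := fun i => ⟨PrimeSpectrum.comap ψ (l i), by
            rw [PrimeSpectrum.mem_zeroLocus]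
            have h4 : l.head ≤ l i := LTSeries.monotone l (Fin.zero_le i)
            intro f hf
            exact h4 (hPQ hf)⟩
          step := by
            intro i
            have h5 := l.step i
            exact (RingHom.strictMono_comap_of_surjective hψ) h5 }
      exact Order.LTSeries.length_le_krullDim l'
    rw [← hMh]
    calc (M.height : WithBot ℕ∞) ≤ ((l.length + Fintype.card α : ℕ∞) : WithBot ℕ∞) := by
          exact_mod_cast h1.trans (add_le_add le_rfl hcard)
      _ = (l.length : WithBot ℕ∞) + Fintype.card α := rfl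
      _ ≤ _ := by gcongr

end H94.Cubic
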