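import Pool.Agent.H94.Cubic.Ex

/-!
# The global sections
-/

open MvPolynomial Filter Topology

set_option linter.unusedSectionVars false
set_option linter.unusedSimpArgs false
set_option linter.unusedVariables false

namespace H94.Cubic

open H89.Hart

variable {ι : Type*} [Fintype ι] [DecidableEq ι] {I : Ideal (MvPolynomial ι ℂ)} {r : ℕ}

theorem finrank_sup3 (hS : Setup I r) {x y w : ι → ℂ} (hx : x ∈ cone I) (hx0 : x ≠ 0)
    (hy : y ∈ cone I) (hy0 : y ≠ 0) (hw : w ∈ cone I) (hw0 : w ≠ 0) :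
    Module.finrank ℂ ((N I x ⊔ N I y ⊔ N I w : Submodule ℂ (ι → ℂ))) ≤ 3 * r := by
  have h1 := Submodule.finrank_add_le_finrank_add_finrank (N I x ⊔ N I y) (N I w)
  have h2 := Submodule.finrank_add_le_finrank_add_finrank (N I x) (N I y)
  rw [hS.smooth.rank x hx hx0, hS.smooth.rank y hy hy0] at h2
  rw [hS.smooth.rank w hw hw0] at h1
  omega

/-- the transport from `p` to `x` through a common neighbour does not depend on the neighbour. -/
theorem sigma_unique (hS : Setup I r) (hcard : 17 * r + 1 ≤ Fintype.card ι)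
    {p x z z' b c c' d d' : ι → ℂ} (hpz : VG I p z) (hxz : VG I x z) (hpz' : VG I p z')
    (hxz' : VG I x z') (r1 : Rel I p b z d) (r2 : Rel I x c z d) (r1' : Rel I p b z' d')
    (r2' : Rel I x c' z' d') : c = c' := by
  have hsum : ∀ {u v : ι → ℂ}, VG I u v → u + v ∈ cone I ∧ u + v ≠ 0 := by
    intro u v h
    have := h.line 1 1
    rw [one_smul, one_smul] at this
    exact ⟨this, h.add_ne_zero hS⟩
  obtain ⟨w, hpw, hA, hT, hB⟩ := EX hS (A := Fin 3) (T := Fin 4) (B := Fin 4) hpz.hx hpz.hx0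
    ![x, z, z']
    (by
      intro a
      fin_cases a
      · exact ⟨hxz.hx, hxz.hx0⟩
      · exact ⟨hxz.hy, hxz.hy0⟩
      · exact ⟨hxz'.hy, hxz'.hy0⟩)
    ![p, p, x, x] ![z, z', z, z']
    (by
      intro t
      fin_cases t
      · exact ⟨hpz.hx, hpz.hx0, hpz.line⟩
      · exact ⟨hpz'.hx, hpz'.hx0, hpz'.line⟩
      · exact ⟨hxz.hx, hxz.hx0, hxz.line⟩
      · exact ⟨hxz'.hx, hxz'.hx0, hxz'.line⟩)
    ![N I p ⊔ N I z ⊔ N I (p + z), N I p ⊔ N I z' ⊔ N I (p + z'),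
      N I z ⊔ N I x ⊔ N I (z + x), N I z' ⊔ N I x ⊔ N I (z' + x)]
    (by
      intro b
      fin_cases b
      · exact finrank_sup3 hS hpz.hx hpz.hx0 hpz.hy hpz.hy0 (hsum hpz).1 (hsum hpz).2
      · exact finrank_sup3 hS hpz'.hx hpz'.hx0 hpz'.hy hpz'.hy0 (hsum hpz').1 (hsum hpz').2
      · exact finrank_sup3 hS hxz.hy hxz.hy0 hxz.hx hxz.hx0 (hsum hxz.symm).1 (hsum hxz.symm).2
      · exact finrank_sup3 hS hxz'.hy hxz'.hy0 hxz'.hx hxz'.hx0 (hsum hxz'.symm).1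
          (hsum hxz'.symm).2)
    (by simp only [Fintype.card_fin]; omega)
  have hxw : VG I x w := hA 0
  have hzw : VG I z w := hA 1
  have hz'w : VG I z' w := hA 2
  have pl0 := hT 0 hpw.line hzw.line
  have pl1 := hT 1 hpw.line hz'w.line
  have pl2 := hT 2 hxw.line hzw.line
  have pl3 := hT 3 hxw.line hz'w.line
  have n0 := hB 0
  have n1 := hB 1
  have n2 := hB 2
  have n3 := hB 3
  simp only [Matrix.cons_val_zero, Matrix.cons_val_one, Matrix.cons_val] at pl0 pl1 pl2 pl3 n0 n1 n2 n3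
  have hw0 : w ≠ 0 := hpw.hy0
  obtain ⟨e, he⟩ := hpw.exists_rel hS (r1.left_mem hpz.hx0)
  obtain ⟨e2, he2⟩ := hzw.exists_rel hS (r1.right_mem hpz.hy0)
  obtain ⟨e3, he3⟩ := hz'w.exists_rel hS (r1'.right_mem hpz'.hy0)
  have a1 : e = e2 := tri hS hpz hw0 pl0 n0 r1 he he2
  have a2 : e = e3 := tri hS hpz' hw0 pl1 n1 r1' he he3
  obtain ⟨e4, he4⟩ := hxw.exists_rel hS (r2.left_mem hxz.hx0)
  obtain ⟨e5, he5⟩ := hxw.exists_rel hS (r2'.left_mem hxz'.hx0)
  have pl2' : ∀ s t u : ℂ, s • z + t • x + u • w ∈ cone I := fun s t u => by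
    have := pl2 t s u
    rwa [add_comm (s • z)]
  have pl3' : ∀ s t u : ℂ, s • z' + t • x + u • w ∈ cone I := fun s t u => by
    have := pl3 t s u
    rwa [add_comm (s • z')]
  have a3 : e2 = e4 := tri hS hxz.symm hw0 pl2' n2 r2.symm he2 he4
  have a4 : e3 = e5 := tri hS hxz'.symm hw0 pl3' n3 r2'.symm he3 he5
  have a5 : e4 = e5 := by rw [← a3, ← a4, ← a1, ← a2]
  rw [a5] at he4
  exact hxw.unique_left hS he4 he5

/-- a common neighbour of three points -/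
theorem exists_common (hS : Setup I r) (hcard : 17 * r + 1 ≤ Fintype.card ι)
    {p x y : ι → ℂ} (hp : p ∈ cone I) (hp0 : p ≠ 0) (hx : x ∈ cone I) (hx0 : x ≠ 0)
    (hy : y ∈ cone I) (hy0 : y ≠ 0) : ∃ w, VG I p w ∧ VG I x w ∧ VG I y w := by
  obtain ⟨w, hpw, hA, -, -⟩ := EX hS (A := Fin 2) (T := Fin 0) (B := Fin 0) hp hp0
    ![x, y] (by
      intro a
      fin_cases a
      · exact ⟨hx, hx0⟩
      · exact ⟨hy, hy0⟩) (fun t => t.elim0) (fun t => t.elim0) (fun t => t.elim0)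
    (fun t => t.elim0) (fun t => t.elim0) (by simp only [Fintype.card_fin]; omega)
  exact ⟨w, hpw, hA 0, hA 1⟩

/-- the global section through `b ∈ S_p`. -/
theorem exists_sigma (hS : Setup I r) (hcard : 17 * r + 1 ≤ Fintype.card ι)
    {p b : ι → ℂ} (hp : p ∈ cone I) (hp0 : p ≠ 0) (hb : b ∈ S I p) :
    ∃ σ : (ι → ℂ) → (ι → ℂ), ∀ x ∈ cone I, x ≠ 0 → ∀ z, VG I p z → VG I x z →
      ∀ d, Rel I p b z d → Rel I x (σ x) z d := by
  have h1 : ∀ x, x ∈ cone I → x ≠ 0 → ∃ c, ∃ z d, VG I p z ∧ VG I x z ∧ Rel I p b z d ∧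
      Rel I x c z d := by
    intro x hx hx0
    obtain ⟨z, hpz, hxz, -⟩ := exists_common hS hcard hp hp0 hx hx0 hx hx0
    obtain ⟨d, hd⟩ := hpz.exists_rel hS hb
    obtain ⟨c, hc⟩ := hxz.symm.exists_rel hS (hd.right_mem hpz.hy0)
    exact ⟨c, z, d, hpz, hxz, hd, hc.symm⟩
  classical
  refine ⟨fun x => if h : x ∈ cone I ∧ x ≠ 0 then (h1 x h.1 h.2).choose else 0, ?_⟩
  intro x hx hx0 z hpz hxz d hd
  have h : x ∈ cone I ∧ x ≠ 0 := ⟨hx, hx0⟩
  beta_reduce
  rw [dif_pos h]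
  obtain ⟨z', d', hpz', hxz', hd', hc'⟩ := (h1 x h.1 h.2).choose_spec
  obtain ⟨c, hc⟩ := hxz.symm.exists_rel hS (hd.right_mem hpz.hy0)
  have := sigma_unique hS hcard hpz hxz hpz' hxz' hd hc.symm hd' hc'
  rw [← this]
  exact hc.symm

/-- symmetry of the global section. -/
theorem sigma_symm (hS : Setup I r) (hcard : 17 * r + 1 ≤ Fintype.card ι)
    {p b : ι → ℂ} (hp : p ∈ cone I) (hp0 : p ≠ 0) (hb : b ∈ S I p) {σ : (ι → ℂ) → (ι → ℂ)}
    (hσ : ∀ x ∈ cone I, x ≠ 0 → ∀ z, VG I p z → VG I x z →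
      ∀ d, Rel I p b z d → Rel I x (σ x) z d) {x y : ι → ℂ} (hx : x ∈ cone I) (hx0 : x ≠ 0)
    (hy : y ∈ cone I) (hy0 : y ≠ 0) : σ x ⬝ᵥ y = σ y ⬝ᵥ x := by
  obtain ⟨z, hpz, hxz, hyz⟩ := exists_common hS hcard hp hp0 hx hx0 hy hy0
  obtain ⟨d, hd⟩ := hpz.exists_rel hS hb
  have r1 := hσ x hx hx0 z hpz hxz d hd
  have r2 := hσ y hy hy0 z hpz hyz d hd
  obtain ⟨G, hG, hGd⟩ := mem_S.1 (hd.right_mem hpz.hy0)
  have hGC := K_le I hG
  have tang : ∀ {u : ι → ℂ}, VG I u z → ∀ n ∈ N I z, n ⬝ᵥ u = 0 := by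
    intro u hu n hn
    obtain ⟨F, hF, rfl⟩ := hS.cub z hu.hy hu.hy0 n hn
    obtain ⟨-, h2, -, -⟩ := line_zero hu.symm.line hF
    rw [dif_eq_H (mem_C3.1 hF).2, smul_dotProduct, h2, smul_zero]
  have m1 := tang hyz _ (sub_H_mem hS hxz.hy hxz.hy0 hxz.symm.line r1.symm hGC hGd)
  have m2 := tang hxz _ (sub_H_mem hS hyz.hy hyz.hy0 hyz.symm.line r2.symm hGC hGd)
  rw [sub_dotProduct, sub_eq_zero] at m1 m2
  rw [m1, m2, H_dot]

/-- quadratic forms from symmetric linear maps. -/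
theorem exists_quadric (B : (ι → ℂ) →ₗ[ℂ] (ι → ℂ)) (hB : ∀ u v, B u ⬝ᵥ v = B v ⬝ᵥ u) :
    ∃ Q : MvPolynomial ι ℂ, Q.IsHomogeneous 2 ∧ (∀ x, eval x Q = (1 / 2) * (B x ⬝ᵥ x)) ∧
      ∀ x, dif Q x = B x := by
  let row : ι → ι → ℂ := fun i => B (Pi.single i 1)
  have hrow : ∀ i x, row i ⬝ᵥ x = B x i := by
    intro i x
    change B (Pi.single i 1) ⬝ᵥ x = B x i
    rw [hB]
    simp
  refine ⟨C (1 / 2) * ∑ i, lf (row i) * X i, ?_, ?_, ?_⟩
  · have h1 : (∑ i, lf (row i) * X i : MvPolynomial ι ℂ).IsHomogeneous 2 :=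
      IsHomogeneous.sum _ _ _ fun i _ => (lf_homog (row i)).mul (isHomogeneous_X _ i)
    have := (isHomogeneous_C ι (1 / 2 : ℂ)).mul h1
    rwa [zero_add] at this
  · intro x
    rw [map_mul, eval_C, map_sum]
    congr 1
    refine Finset.sum_congr rfl fun i _ => ?_
    rw [map_mul, eval_lf, eval_X, hrow]
  · intro x
    have h2 : ∀ i, dif (lf (row i) * X i) x = B x i • Pi.single i 1 + x i • row i := by
      intro i
      rw [dif_mul, dif_X, dif_lf, eval_lf, eval_X, hrow]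
    have h3 : ∑ i, x i • row i = B x := by
      conv_rhs => rw [show x = ∑ k, x k • (Pi.single k (1 : ℂ) : ι → ℂ) from by
        funext m; simp [Finset.sum_apply, Pi.single_apply]]
      rw [map_sum]
      simp only [map_smul, row]
    have h4 : ∑ i, B x i • (Pi.single i 1 : ι → ℂ) = B x := by
      funext m; simp [Finset.sum_apply, Pi.single_apply]
    rw [dif_mul, dif_sum, Finset.sum_congr rfl (fun i _ => h2 i), Finset.sum_add_distrib, h3, h4]
    have h5 : dif (C (1 / 2) : MvPolynomial ι ℂ) x = 0 := by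
      funext k; simp [dif]
    rw [h5, smul_zero, add_zero, eval_C]
    funext k
    simp only [Pi.smul_apply, Pi.add_apply, smul_eq_mul]
    ring

/-- The global sections are the gradients of quadrics. -/
theorem exists_quadric_sigma (hS : Setup I r) {σ : (ι → ℂ) → (ι → ℂ)}
    (hsym : ∀ x ∈ cone I, x ≠ 0 → ∀ y ∈ cone I, y ≠ 0 → σ x ⬝ᵥ y = σ y ⬝ᵥ x)
    (hN : ∀ x ∈ cone I, x ≠ 0 → σ x ∈ N I x) :
    ∃ Q ∈ I, Q.IsHomogeneous 2 ∧ ∀ x ∈ cone I, x ≠ 0 → dif Q x = σ x := by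
  classical
  -- a basis in the cone
  have htop : Submodule.span ℂ (cone I) = ⊤ := by
    by_contra hne
    obtain ⟨v, hv⟩ : ∃ v, v ∉ Submodule.span ℂ (cone I) := by
      by_contra hc
      push Not at hc
      exact hne (Submodule.eq_top_iff'.2 hc)
    obtain ⟨f, hf1, hf2⟩ := Submodule.exists_dual_map_eq_bot_of_notMem hv inferInstance
    let s : ι → ℂ := fun i => f (Pi.single i 1)
    have hs : ∀ x, f x = s ⬝ᵥ x := by
      intro x
      conv_lhs => rw [show x = ∑ k, x k • (Pi.single k (1 : ℂ) : ι → ℂ) from by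
        funext m; simp [Finset.sum_apply, Pi.single_apply]]
      rw [map_sum]
      simp [dotProduct, s, mul_comm]
    have h0 := hS.nondeg s (fun x hx => by
      rw [← hs]
      have : f x ∈ (Submodule.span ℂ (cone I)).map f := ⟨x, Submodule.subset_span hx, rfl⟩
      rw [hf2] at this
      exact (Submodule.mem_bot ℂ).1 this)
    apply hf1
    rw [hs, h0, zero_dotProduct]
  have h := Submodule.exists_fun_fin_finrank_span_eq ℂ (cone I)
  obtain ⟨b, hb1, hb2, hb3⟩ := h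
  replace hb2 := hb2.trans htop
  let bas : Module.Basis _ ℂ (ι → ℂ) := Module.Basis.mk hb3 hb2.ge
  have hbas : ∀ i, bas i = b i := fun i => by simp [bas]
  have hb0 : ∀ i, b i ≠ 0 := fun i => hb3.ne_zero i
  let B : (ι → ℂ) →ₗ[ℂ] (ι → ℂ) := bas.constr ℂ (fun i => σ (b i))
  have hBb : ∀ i, B (b i) = σ (b i) := by
    intro i
    rw [← hbas]
    simp only [B]
    rw [Module.Basis.constr_basis, hbas]
  have hBx : ∀ x, B x = ∑ i, bas.repr x i • σ (b i) := by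
    intro x
    conv_lhs => rw [← bas.sum_repr x]
    rw [map_sum]
    refine Finset.sum_congr rfl fun i _ => ?_
    rw [map_smul, hbas, hBb]
  have hxb : ∀ x : ι → ℂ, x = ∑ i, bas.repr x i • b i := by
    intro x
    conv_lhs => rw [← bas.sum_repr x]
    refine Finset.sum_congr rfl fun i _ => ?_
    rw [hbas]
  have hext : ∀ u v : ι → ℂ, (∀ i, u ⬝ᵥ b i = v ⬝ᵥ b i) → u = v := by
    intro u v huv
    have h1 : ∀ x, u ⬝ᵥ x = v ⬝ᵥ x := by
      intro x
      rw [hxb x, dotProduct_sum, dotProduct_sum]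
      refine Finset.sum_congr rfl fun i _ => ?_
      rw [dotProduct_smul, dotProduct_smul, huv]
    funext k
    have := h1 (Pi.single k 1)
    simpa using this
  have hBσ : ∀ x ∈ cone I, x ≠ 0 → B x = σ x := by
    intro x hx hx0
    apply hext
    intro j
    rw [hBx, sum_dotProduct, hsym x hx hx0 (b j) (hb1 j) (hb0 j)]
    conv_rhs => rw [hxb x, dotProduct_sum]
    refine Finset.sum_congr rfl fun i _ => ?_
    rw [smul_dotProduct, dotProduct_smul, hsym (b i) (hb1 i) (hb0 i) (b j) (hb1 j) (hb0 j)]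
  have hBsym : ∀ u v, B u ⬝ᵥ v = B v ⬝ᵥ u := by
    intro u v
    have h1 : ∀ u v, B u ⬝ᵥ v = ∑ i, ∑ j, bas.repr u i * bas.repr v j * (σ (b i) ⬝ᵥ b j) := by
      intro u v
      conv_lhs => rw [hxb v]
      rw [hBx, sum_dotProduct]
      refine Finset.sum_congr rfl fun i _ => ?_
      rw [dotProduct_sum]
      refine Finset.sum_congr rfl fun j _ => ?_
      rw [smul_dotProduct, dotProduct_smul, smul_eq_mul, smul_eq_mul]
      ring
    rw [h1 u v, h1 v u, Finset.sum_comm]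
    refine Finset.sum_congr rfl fun j _ => Finset.sum_congr rfl fun i _ => ?_
    rw [hsym (b i) (hb1 i) (hb0 i) (b j) (hb1 j) (hb0 j)]
    ring
  obtain ⟨Q, hQh, hQe, hQd⟩ := exists_quadric B hBsym
  refine ⟨Q, ?_, hQh, fun x hx hx0 => by rw [hQd, hBσ x hx hx0]⟩
  apply mem_of_cone hS.smooth.prime
  intro x hx
  rw [hQe]
  by_cases hx0 : x = 0
  · subst hx0; simp
  · rw [hBσ x hx hx0, dot_self hS.smooth hx (hN x hx hx0), mul_zero]

end H94.Cubic
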